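import Mathlib
import Pool.Agent.H56.HJ.Ker

set_option autoImplicit false

/-!
# Planted kernels: images of patterns, cubes, vectors
-/

namespace Pool.Agent.H56.TC

open Finset Pool.Agent.H56.HJ

variable {d : ℕ}

/-- the union of two patterns -/
def un {ι : Type} (P Q : (Fin d → ι) → Prop) : (Fin d → ι) → Prop := fun c => P c ∨ Q c

/-- the full cube over `T` -/
def cu {ι : Type} (T : Finset ι) : (Fin d → ι) → Prop := fun c => ∀ t, c t ∈ T

/-- the image of a pattern -/
def img {ι κ : Type} (h : ι ↪ κ) (P : (Fin d → ι) → Prop) : (Fin d → κ) → Prop :=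
  fun c' => ∃ c : Fin d → ι, P c ∧ (fun t => h (c t)) = c'

lemma img_comp {ι κ : Type} (h : ι ↪ κ) (P : (Fin d → ι) → Prop) (c : Fin d → ι) :
    img h P (fun t => h (c t)) ↔ P c := by
  constructor
  · rintro ⟨c', hP, hc⟩
    have : c' = c := funext fun t => h.injective (congrFun hc t)
    rwa [← this]
  · exact fun hP => ⟨c, hP, rfl⟩

lemma img_range {ι κ : Type} (h : ι ↪ κ) (P : (Fin d → ι) → Prop) {c : Fin d → κ}
    (hc : img h P c) (t : Fin d) : c t ∈ Set.range h := by
  obtain ⟨c', -, rfl⟩ := hc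
  exact ⟨c' t, rfl⟩

lemma img_un {ι κ : Type} (h : ι ↪ κ) (P Q : (Fin d → ι) → Prop) :
    img h (un P Q) = un (img h P) (img h Q) := by
  funext c
  apply propext
  constructor
  · rintro ⟨c', hP | hQ, rfl⟩
    · exact Or.inl ⟨c', hP, rfl⟩
    · exact Or.inr ⟨c', hQ, rfl⟩
  · rintro (⟨c', hP, rfl⟩ | ⟨c', hQ, rfl⟩)
    · exact ⟨c', Or.inl hP, rfl⟩
    · exact ⟨c', Or.inr hQ, rfl⟩

lemma img_cu {ι κ : Type} (h : ι ↪ κ) (T : Finset ι) :
    img (d := d) h (cu T) = cu (T.map h) := by
  funext c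
  apply propext
  constructor
  · rintro ⟨c', hP, rfl⟩ t
    exact mem_map_of_mem h (hP t)
  · intro hc
    have : ∀ t, ∃ x ∈ T, h x = c t := fun t => by
      have := hc t
      rw [mem_map] at this
      exact this
    choose c' h1 h2 using this
    exact ⟨c', h1, funext h2⟩

lemma img_congr {ι κ : Type} (h h' : ι ↪ κ) (P : (Fin d → ι) → Prop)
    (hh : ∀ c, P c → ∀ t, h (c t) = h' (c t)) : img h P = img h' P := by
  funext c
  apply propext
  constructor
  · rintro ⟨c', hP, rfl⟩
    exact ⟨c', hP, funext fun t => (hh c' hP t).symm⟩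
  · rintro ⟨c', hP, rfl⟩
    exact ⟨c', hP, funext fun t => hh c' hP t⟩

lemma K_img (S : PKer d) {ι κ : Type} [Fintype ι] [Fintype κ] (h : ι ↪ κ)
    (P Q : (Fin d → ι) → Prop) : S.K κ (img h P) (img h Q) = S.K ι P Q := by
  rw [S.loc h]
  · exact S.congr (fun c => img_comp h P c) (fun c => img_comp h Q c)
  · rintro c ⟨t, ht⟩
    constructor
    · intro hc
      exact (ht (img_range h P hc t)).elim
    · intro hc
      exact (ht (img_range h Q hc t)).elim

/-- vectors with the kernel as Gram matrix -/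
theorem exists_vec (S : PKer d) (ι : Type) [Fintype ι] :
    ∃ (m : ℕ) (F : ((Fin d → ι) → Prop) → EuclideanSpace ℝ (Fin m)),
      ∀ P Q, inner ℝ (F P) (F Q) = S.K ι P Q := by
  classical
  set M : Matrix ((Fin d → ι) → Prop) ((Fin d → ι) → Prop) ℝ :=
    Matrix.of fun P Q => S.K ι P Q with hM
  have h1 : M.PosSemidef := by
    refine Matrix.PosSemidef.of_dotProduct_mulVec_nonneg ?_ ?_
    · ext P Q
      simp only [hM, Matrix.conjTranspose_apply, Matrix.of_apply, star_trivial]
      exact S.symm ι Q P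
    · intro x
      have h := S.psd ι ((Fin d → ι) → Prop) x fun P => P
      refine h.trans (le_of_eq ?_)
      simp only [dotProduct, Matrix.mulVec, hM, Matrix.of_apply, star_trivial, Pi.star_apply]
      refine sum_congr rfl fun P _ => ?_
      rw [mul_sum]
      refine sum_congr rfl fun Q _ => ?_
      ring
  obtain ⟨m, v, hv⟩ := Matrix.posSemidef_iff_eq_sum_vecMulVec.1 h1
  refine ⟨m, fun P => WithLp.toLp 2 fun i => v i P, fun P Q => ?_⟩
  have h2 : M P Q = S.K ι P Q := rfl
  rw [← h2, hv]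
  simp only [PiLp.inner_apply, Matrix.sum_apply, Matrix.vecMulVec_apply, star_trivial]
  refine sum_congr rfl fun i _ => ?_
  simp [mul_comm]

lemma K_le (S : PKer d) (hd : 1 ≤ d) (ι : Type) [Fintype ι] (P Q : (Fin d → ι) → Prop) :
    |S.K ι P Q| ≤ S.v := by
  obtain ⟨m, F, hF⟩ := exists_vec S ι
  have h : ∀ P, ‖F P‖ = √(S.v) := by
    intro P
    have h1 : ‖F P‖ ^ 2 = S.v := by
      rw [← real_inner_self_eq_norm_sq, hF]
      exact S.same ι hd P P fun _ => Iff.rfl
    rw [← h1]
    exact (Real.sqrt_sq (norm_nonneg _)).symm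
  rw [← hF]
  refine (abs_real_inner_le_norm _ _).trans ?_
  rw [h, h]
  exact le_of_eq (Real.mul_self_sqrt S.v_nonneg)

/-- the complementary kernel -/
noncomputable def compl (S : PKer d) : PKer d where
  K ι _ P Q := S.K ι (fun c => ¬ P c) (fun c => ¬ Q c)
  B := S.B
  bdd ι _ P Q := S.bdd ι _ _
  symm ι _ P Q := S.symm ι _ _
  loc := by
    intro ι ι' _ _ g P Q h
    rw [S.loc g]
    intro c hc
    exact not_congr (h c hc)
  psd := fun ι _ X _ c P => S.psd ι X c fun x c => ¬ P x c

lemma compl_K (S : PKer d) (ι : Type) [Fintype ι] (P Q : (Fin d → ι) → Prop) :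
    (compl S).K ι P Q = S.K ι (fun c => ¬ P c) (fun c => ¬ Q c) := rfl

lemma compl_K' (S : PKer d) (ι : Type) [Fintype ι] (P Q : (Fin d → ι) → Prop) :
    S.K ι P Q = (compl S).K ι (fun c => ¬ P c) (fun c => ¬ Q c) := by
  rw [compl_K]
  exact S.congr (fun c => not_not.symm) (fun c => not_not.symm)

/-- the value at two cubes -/
noncomputable def kf (S : PKer d) (s t r : ℕ) : ℝ :=
  S.K (Fin s ⊕ Fin t ⊕ Fin r) (fun c => ∀ i, ¬ ∃ x, c i = Sum.inr (Sum.inl x))
    (fun c => ∀ i, ¬ ∃ x, c i = Sum.inl x)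

lemma kf_le (S : PKer d) (hd : 1 ≤ d) (s t r : ℕ) : |kf S s t r| ≤ S.v := K_le S hd _ _ _

theorem cubes (S : PKer d) {ι : Type} [Fintype ι] [DecidableEq ι] (P : (Fin d → ι) → Prop)
    (A B : Finset ι) (hP : ∀ c : Fin d → ι, (∀ t, c t ∈ A ∪ B) → ¬ P c) :
    S.K ι (un P (cu A)) (un P (cu B)) = kf S (A \ B).card (B \ A).card (A ∩ B).card := by
  set g : Fin (A \ B).card ⊕ Fin (B \ A).card ⊕ Fin (A ∩ B).card → ι :=
    Sum.elim (fun x => ((A \ B).equivFin.symm x : ι))
      (Sum.elim (fun x => ((B \ A).equivFin.symm x : ι)) (fun x => ((A ∩ B).equivFin.symm x : ι)))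
    with hg
  have g1 : ∀ x, g (Sum.inl x) ∈ A \ B := fun x => ((A \ B).equivFin.symm x).2
  have g2 : ∀ x, g (Sum.inr (Sum.inl x)) ∈ B \ A := fun x => ((B \ A).equivFin.symm x).2
  have g3 : ∀ x, g (Sum.inr (Sum.inr x)) ∈ A ∩ B := fun x => ((A ∩ B).equivFin.symm x).2
  have hinj : Function.Injective g := by
    rintro (x | x | x) (y | y | y) hxy
    · have h1 : (A \ B).equivFin.symm x = (A \ B).equivFin.symm y := Subtype.ext hxy
      rw [(A \ B).equivFin.symm.injective h1]
    · have h1 := g1 x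
      have h2 := g2 y
      rw [hxy] at h1
      rw [mem_sdiff] at h1 h2
      exact (h1.2 h2.1).elim
    · have h1 := g1 x
      have h2 := g3 y
      rw [hxy] at h1
      rw [mem_sdiff] at h1
      rw [mem_inter] at h2
      exact (h1.2 h2.2).elim
    · have h1 := g2 x
      have h2 := g1 y
      rw [hxy] at h1
      rw [mem_sdiff] at h1 h2
      exact (h1.2 h2.1).elim
    · have h1 : (B \ A).equivFin.symm x = (B \ A).equivFin.symm y := Subtype.ext hxy
      rw [(B \ A).equivFin.symm.injective h1]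
    · have h1 := g2 x
      have h2 := g3 y
      rw [hxy] at h1
      rw [mem_sdiff] at h1
      rw [mem_inter] at h2
      exact (h1.2 h2.1).elim
    · have h1 := g3 x
      have h2 := g1 y
      rw [hxy] at h1
      rw [mem_sdiff] at h2
      rw [mem_inter] at h1
      exact (h2.2 h1.2).elim
    · have h1 := g3 x
      have h2 := g2 y
      rw [hxy] at h1
      rw [mem_sdiff] at h2
      rw [mem_inter] at h1
      exact (h2.2 h1.1).elim
    · have h1 : (A ∩ B).equivFin.symm x = (A ∩ B).equivFin.symm y := Subtype.ext hxy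
      rw [(A ∩ B).equivFin.symm.injective h1]
  have hA : ∀ z, g z ∈ A ↔ ¬ ∃ x, z = Sum.inr (Sum.inl x) := by
    rintro (z | z | z)
    · have := g1 z
      rw [mem_sdiff] at this
      simp [this.1]
    · have := g2 z
      rw [mem_sdiff] at this
      simp [this.2]
    · have := g3 z
      rw [mem_inter] at this
      simp [this.1]
  have hB : ∀ z, g z ∈ B ↔ ¬ ∃ x, z = Sum.inl x := by
    rintro (z | z | z)
    · have := g1 z
      rw [mem_sdiff] at this
      simp [this.2]
    · have := g2 z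
      rw [mem_sdiff] at this
      simp [this.1]
    · have := g3 z
      rw [mem_inter] at this
      simp [this.2]
  have hAB : ∀ z, g z ∈ A ∪ B := by
    intro z
    rw [mem_union, hA, hB]
    rcases z with z | z | z <;> simp
  have hr : ∀ i, i ∈ A ∪ B → i ∈ Set.range g := by
    intro i hi
    by_cases h1 : i ∈ A
    · by_cases h2 : i ∈ B
      · exact ⟨Sum.inr (Sum.inr ((A ∩ B).equivFin ⟨i, mem_inter.2 ⟨h1, h2⟩⟩)), by simp [hg]⟩
      · exact ⟨Sum.inl ((A \ B).equivFin ⟨i, mem_sdiff.2 ⟨h1, h2⟩⟩), by simp [hg]⟩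
    · have h2 : i ∈ B := by
        rcases mem_union.1 hi with h | h
        · exact (h1 h).elim
        · exact h
      exact ⟨Sum.inr (Sum.inl ((B \ A).equivFin ⟨i, mem_sdiff.2 ⟨h2, h1⟩⟩)), by simp [hg]⟩
  rw [S.loc ⟨g, hinj⟩]
  · refine S.congr (fun c => ?_) (fun c => ?_)
    · have h1 := hP (fun t => g (c t)) fun t => hAB _
      simp only [un, cu, Function.Embedding.coeFn_mk]
      rw [or_iff_right h1]
      exact forall_congr' fun t => hA _
    · have h1 := hP (fun t => g (c t)) fun t => hAB _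
      simp only [un, cu, Function.Embedding.coeFn_mk]
      rw [or_iff_right h1]
      exact forall_congr' fun t => hB _
  · rintro c ⟨t, ht⟩
    have h1 : c t ∉ A ∪ B := fun h => ht (hr _ h)
    rw [mem_union, not_or] at h1
    constructor
    · rintro (h | h)
      · exact Or.inl h
      · exact (h1.1 (h t)).elim
    · rintro (h | h)
      · exact Or.inl h
      · exact (h1.2 (h t)).elim

end Pool.Agent.H56.TC
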