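import Mathlib
import Pool.Agent.H56.TC.Basic

set_option autoImplicit false

/-!
# Planted kernels: translation of an averaged block

If `X` is a block of random size then, on average, planting the full cube over `X ∪ Z` has the same
effect as planting the full cube over `X`, provided that the cube over `Z` was empty before.
-/

namespace Pool.Agent.H56.TC

open Finset Pool.Agent.H56.HJ

variable {d : ℕ}

lemma shift1 (g : ℕ → ℝ) (B : ℝ) (hg : ∀ x, |g x| ≤ B) (s n : ℕ) :
    |∑ x ∈ range n, g (x + s) - ∑ x ∈ range n, g x| ≤ 2 * s * B := by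
  induction s with
  | zero => simp
  | succ s ih =>
    have h1 : ∑ x ∈ range n, g (x + (s + 1)) - ∑ x ∈ range n, g (x + s) = g (n + s) - g (0 + s) := by
      rw [← sum_sub_distrib, ← sum_range_sub (fun x => g (x + s))]
      refine sum_congr rfl fun x _ => ?_
      rw [show x + (s + 1) = x + 1 + s by ring]
    have h2 := hg (n + s)
    have h3 := hg (0 + s)
    have h4 : ∑ x ∈ range n, g (x + (s + 1)) - ∑ x ∈ range n, g x
        = (g (n + s) - g (0 + s)) + (∑ x ∈ range n, g (x + s) - ∑ x ∈ range n, g x) := by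
      rw [← h1]
      ring
    rw [h4]
    push_cast
    rw [abs_le] at *
    constructor <;> linarith [h2.1, h2.2, h3.1, h3.2, ih.1, ih.2]

lemma shift2 (f : ℕ → ℕ → ℝ) (B : ℝ) (hf : ∀ x y, |f x y| ≤ B) (s t n : ℕ) :
    |∑ x ∈ range n, ∑ y ∈ range n, f (x + s) (y + t) - ∑ x ∈ range n, ∑ y ∈ range n, f x y|
      ≤ 2 * (s + t) * B * n := by
  have h1 : |∑ x ∈ range n, ∑ y ∈ range n, f (x + s) (y + t)
      - ∑ x ∈ range n, ∑ y ∈ range n, f (x + s) y| ≤ n * (2 * t * B) := by
    rw [← sum_sub_distrib]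
    refine (abs_sum_le_sum_abs _ _).trans ?_
    refine (sum_le_sum fun x _ => shift1 (f (x + s)) B (hf _) t n).trans ?_
    simp
  have h2 : |∑ x ∈ range n, ∑ y ∈ range n, f (x + s) y
      - ∑ x ∈ range n, ∑ y ∈ range n, f x y| ≤ n * (2 * s * B) := by
    rw [sum_comm, sum_comm (f := fun x y => f x y), ← sum_sub_distrib]
    refine (abs_sum_le_sum_abs _ _).trans ?_
    refine (sum_le_sum fun y _ => shift1 (fun x => f x y) B (fun x => hf x y) s n).trans ?_
    simp
  rw [abs_le] at *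
  constructor <;> nlinarith [h1.1, h1.2, h2.1, h2.2]

/-- the sum of the values at two cubes over blocks of all sizes, with an intersection of size `r` -/
noncomputable def HH (S : PKer d) (n r : ℕ) : ℝ :=
  ∑ x ∈ range n, ∑ y ∈ range n, kf S (x + 1) (y + 1) r

/-- the block number `x` of the pool, of size `x + 1` -/
def blk (ι : Type) (n : ℕ) (x : Fin n) : Finset (ι ⊕ (Fin n × Fin n)) :=
  (Finset.Iic x).map ⟨fun j => Sum.inr (x, j), fun a b h => by simpa using h⟩

lemma mem_blk {ι : Type} {n : ℕ} {x : Fin n} {z : ι ⊕ (Fin n × Fin n)} :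
    z ∈ blk ι n x ↔ ∃ j ≤ x, z = Sum.inr (x, j) := by
  unfold blk
  rw [mem_map]
  constructor
  · rintro ⟨j, hj, rfl⟩
    exact ⟨j, mem_Iic.1 hj, rfl⟩
  · rintro ⟨j, hj, rfl⟩
    exact ⟨j, mem_Iic.2 hj, rfl⟩

lemma inl_notMem_blk {ι : Type} {n : ℕ} {x : Fin n} (i : ι) : Sum.inl i ∉ blk ι n x := by
  rw [mem_blk]
  rintro ⟨j, -, h⟩
  cases h

lemma card_blk (ι : Type) (n : ℕ) (x : Fin n) : (blk ι n x).card = x + 1 := by
  unfold blk
  rw [card_map, Fin.card_Iic]

open Classical in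
/-- the pattern with the block `x` -/
noncomputable def pp {ι : Type} (n : ℕ) (P : (Fin d → ι) → Prop) (x : Fin n) (T : Finset ι) :
    (Fin d → ι ⊕ (Fin n × Fin n)) → Prop :=
  un (img Function.Embedding.inl P) (cu (blk ι n x ∪ T.map Function.Embedding.inl))

open Classical in
lemma pp_inner (S : PKer d) {ι : Type} [Fintype ι] (n : ℕ)
    (P : (Fin d → ι) → Prop) (x y : Fin n) (hxy : x ≠ y) (T T' : Finset ι)
    (hP : ∀ c : Fin d → ι, (∀ t, c t ∈ T ∪ T') → ¬ P c) :
    S.K (ι ⊕ (Fin n × Fin n)) (pp n P x T) (pp n P y T')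
      = kf S (x + 1 + (T \ T').card) (y + 1 + (T' \ T).card) (T ∩ T').card := by
  have key : ∀ (x y : Fin n), x ≠ y → ∀ (T T' : Finset ι),
      (blk ι n x ∪ T.map Function.Embedding.inl) \ (blk ι n y ∪ T'.map Function.Embedding.inl)
        = blk ι n x ∪ (T \ T').map Function.Embedding.inl := by
    intro x y hxy T T'
    ext z
    simp only [mem_sdiff, mem_union, mem_map, Function.Embedding.inl_apply]
    constructor
    · rintro ⟨h1 | ⟨i, hi, rfl⟩, h2⟩
      · exact Or.inl h1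
      · refine Or.inr ⟨i, ⟨hi, fun h => h2 (Or.inr ⟨i, h, rfl⟩)⟩, rfl⟩
    · rintro (h1 | ⟨i, ⟨hi, hi'⟩, rfl⟩)
      · refine ⟨Or.inl h1, ?_⟩
        obtain ⟨j, -, rfl⟩ := mem_blk.1 h1
        rintro (h2 | ⟨i, -, h2⟩)
        · obtain ⟨j', -, h3⟩ := mem_blk.1 h2
          have := congrArg Prod.fst (Sum.inr_injective h3)
          exact hxy this
        · cases h2
      · refine ⟨Or.inr ⟨i, hi, rfl⟩, ?_⟩
        rintro (h2 | ⟨i', h3, h2⟩)
        · exact inl_notMem_blk i h2
        · exact hi' (Sum.inl_injective h2 ▸ h3)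
  have hcard : ∀ (x : Fin n) (T : Finset ι),
      (blk ι n x ∪ T.map Function.Embedding.inl).card = x + 1 + T.card := by
    intro x T
    rw [card_union_of_disjoint, card_blk, card_map]
    rw [Finset.disjoint_left]
    intro z hz hz'
    obtain ⟨j, -, rfl⟩ := mem_blk.1 hz
    rw [mem_map] at hz'
    obtain ⟨i, -, h⟩ := hz'
    cases h
  have hinter : (blk ι n x ∪ T.map Function.Embedding.inl)
      ∩ (blk ι n y ∪ T'.map Function.Embedding.inl) = (T ∩ T').map Function.Embedding.inl := by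
    ext z
    simp only [mem_inter, mem_union, mem_map, Function.Embedding.inl_apply]
    constructor
    · rintro ⟨h1 | ⟨i, hi, rfl⟩, h2⟩
      · obtain ⟨j, -, rfl⟩ := mem_blk.1 h1
        rcases h2 with h2 | ⟨i, -, h2⟩
        · obtain ⟨j', -, h3⟩ := mem_blk.1 h2
          have := congrArg Prod.fst (Sum.inr_injective h3)
          exact (hxy this).elim
        · cases h2
      · rcases h2 with h2 | ⟨i', hi', h2⟩
        · exact (inl_notMem_blk i h2).elim
        · exact ⟨i, ⟨hi, Sum.inl_injective h2 ▸ hi'⟩, rfl⟩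
    · rintro ⟨i, ⟨hi, hi'⟩, rfl⟩
      exact ⟨Or.inr ⟨i, hi, rfl⟩, Or.inr ⟨i, hi', rfl⟩⟩
  unfold pp
  rw [cubes]
  · rw [key x y hxy, key y x hxy.symm, hcard, hcard, hinter, card_map]
  · rintro c hc ⟨e, he, rfl⟩
    refine hP e (fun t => ?_) he
    have := hc t
    simp only [mem_union, mem_map, Function.Embedding.inl_apply] at this ⊢
    rcases this with (h | ⟨i, hi, h⟩) | (h | ⟨i, hi, h⟩)
    · exact (inl_notMem_blk _ h).elim
    · exact Or.inl (Sum.inl_injective h ▸ hi)
    · exact (inl_notMem_blk _ h).elim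
    · exact Or.inr (Sum.inl_injective h ▸ hi)

/-- the inner product of two averaged vectors -/
lemma inner_sum_le (S : PKer d) (hd : 1 ≤ d) {ι : Type} [Fintype ι] (n m k : ℕ)
    (F : ((Fin d → ι ⊕ (Fin n × Fin n)) → Prop) → EuclideanSpace ℝ (Fin m))
    (hF : ∀ P Q, inner ℝ (F P) (F Q) = S.K (ι ⊕ (Fin n × Fin n)) P Q)
    (P : (Fin d → ι) → Prop) (T T' : Finset ι) (hT : T.card ≤ k) (hT' : T'.card ≤ k)
    (r : ℕ) (hr : ∀ [DecidableEq ι], (T ∩ T').card = r)
    (hP : ∀ c : Fin d → ι, (∀ t, c t ∈ T ∨ c t ∈ T') → ¬ P c) :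
    |inner ℝ (∑ x : Fin n, F (pp n P x T)) (∑ x : Fin n, F (pp n P x T')) - HH S n r|
      ≤ 2 * (1 + 2 * k) * S.v * n := by
  classical
  set s := (T \ T').card with hs
  set t := (T' \ T).card with ht
  have hs' : s ≤ k := (card_le_card sdiff_subset).trans hT
  have ht' : t ≤ k := (card_le_card sdiff_subset).trans hT'
  have hv := S.v_nonneg
  have h1 : |inner ℝ (∑ x : Fin n, F (pp n P x T)) (∑ x : Fin n, F (pp n P x T'))
      - ∑ x ∈ range n, ∑ y ∈ range n, kf S (x + s + 1) (y + t + 1) r| ≤ 2 * S.v * n := by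
    rw [sum_inner]
    simp only [inner_sum, hF]
    have e1 : ∑ x ∈ range n, ∑ y ∈ range n, kf S (x + s + 1) (y + t + 1) r
        = ∑ x : Fin n, ∑ y : Fin n, kf S ((x : ℕ) + s + 1) ((y : ℕ) + t + 1) r := by
      rw [← Fin.sum_univ_eq_sum_range (fun x => ∑ y ∈ range n, kf S (x + s + 1) (y + t + 1) r)]
      refine sum_congr rfl fun x _ => ?_
      rw [← Fin.sum_univ_eq_sum_range (fun y => kf S ((x : ℕ) + s + 1) (y + t + 1) r)]
    rw [e1, ← sum_sub_distrib]
    have e2 : ∀ x : Fin n, ∑ y : Fin n, S.K (ι ⊕ (Fin n × Fin n)) (pp n P x T) (pp n P y T')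
        - ∑ y : Fin n, kf S ((x : ℕ) + s + 1) ((y : ℕ) + t + 1) r
        = S.K (ι ⊕ (Fin n × Fin n)) (pp n P x T) (pp n P x T')
          - kf S ((x : ℕ) + s + 1) ((x : ℕ) + t + 1) r := by
      intro x
      rw [← sum_sub_distrib]
      refine sum_eq_single_of_mem x (mem_univ _) fun y _ hyx => ?_
      rw [pp_inner S n P x y hyx.symm T T' fun c hc => hP c fun t => mem_union.1 (hc t), hr]
      rw [show (x : ℕ) + 1 + (T \ T').card = x + s + 1 by rw [hs]; ring,
        show (y : ℕ) + 1 + (T' \ T).card = y + t + 1 by rw [ht]; ring]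
      ring
    rw [sum_congr rfl fun x _ => e2 x]
    refine (abs_sum_le_sum_abs _ _).trans ?_
    have e3 : ∀ x : Fin n, |S.K (ι ⊕ (Fin n × Fin n)) (pp n P x T) (pp n P x T')
          - kf S ((x : ℕ) + s + 1) ((x : ℕ) + t + 1) r| ≤ 2 * S.v := by
      intro x
      have h3 := K_le S hd (ι ⊕ (Fin n × Fin n)) (pp n P x T) (pp n P x T')
      have h4 := kf_le S hd ((x : ℕ) + s + 1) ((x : ℕ) + t + 1) r
      rw [abs_le] at *
      constructor <;> linarith [h3.1, h3.2, h4.1, h4.2]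
    refine (sum_le_sum fun x _ => e3 x).trans ?_
    simp
    linarith
  have h2 := shift2 (fun x y => kf S (x + 1) (y + 1) r) S.v (fun x y => kf_le S hd _ _ _) s t n
  have h3 : (2 * ((s : ℝ) + t) * S.v * n) ≤ 2 * (2 * k) * S.v * n := by
    have : (s : ℝ) + t ≤ 2 * k := by
      have : (s : ℝ) ≤ k := by exact_mod_cast hs'
      have : (t : ℝ) ≤ k := by exact_mod_cast ht'
      linarith
    gcongr
  have h4 : HH S n r = ∑ x ∈ range n, ∑ y ∈ range n, kf S (x + 1) (y + 1) r := rfl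
  rw [h4]
  rw [abs_le] at h1 h2 ⊢
  constructor <;> nlinarith [h1.1, h1.2, h2.1, h2.2]

end Pool.Agent.H56.TC
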