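import Mathlib
import Pool.Agent.H56.TC.Move

set_option autoImplicit false

/-!
# Planted kernels: translation of an averaged block, proof
-/

namespace Pool.Agent.H56.TC

open Finset Pool.Agent.H56.HJ

variable {d : ℕ}

/-- the full cube over a set -/
def cs {ι : Type} (T : Set ι) : (Fin d → ι) → Prop := fun c => ∀ t, c t ∈ T

lemma img_cs {ι κ : Type} (h : ι ↪ κ) (T : Set ι) :
    img (d := d) h (cs T) = cs (h '' T) := by
  funext c
  apply propext
  constructor
  · rintro ⟨c', hP, rfl⟩ t
    exact ⟨c' t, hP t, rfl⟩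
  · intro hc
    choose c' h1 h2 using hc
    exact ⟨c', h1, funext h2⟩

lemma img_img {ι κ κ' : Type} (h : ι ↪ κ) (g : κ ↪ κ') (P : (Fin d → ι) → Prop) :
    img g (img h P) = img (h.trans g) P := by
  funext c
  apply propext
  constructor
  · rintro ⟨c', ⟨c'', hP, rfl⟩, rfl⟩
    exact ⟨c'', hP, rfl⟩
  · rintro ⟨c', hP, rfl⟩
    exact ⟨_, ⟨c', hP, rfl⟩, rfl⟩

/-- the index types of the vectors in the orthogonality argument -/
def TT (m z : ℕ) : Option (Option (Fin m)) → Finset (Fin m × Fin z)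
  | none => univ
  | some none => ∅
  | some (some i) => univ.map ⟨fun j => (i, j), fun a b h => by simpa using h⟩

/-- coefficients -/
def cc (m : ℕ) : Option (Option (Fin m)) → ℝ
  | none => 1
  | some none => m
  | some (some _) => -1

/-- sizes of intersections -/
def rr (m z : ℕ) : Option (Option (Fin m)) → Option (Option (Fin m)) → ℕ
  | none, none => m * z
  | none, some none => 0
  | none, some (some _) => z
  | some none, _ => 0
  | some (some _), none => z
  | some (some _), some none => 0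
  | some (some i), some (some j) => if i = j then z else 0

lemma mem_TT {m z : ℕ} (i : Fin m) (p : Fin m × Fin z) : p ∈ TT m z (some (some i)) ↔ p.1 = i := by
  obtain ⟨a, b⟩ := p
  simp [TT]
  exact eq_comm

lemma card_TT {m z : ℕ} (i : Fin m) : (TT m z (some (some i))).card = z := by
  simp [TT]

lemma TT_inter (m z : ℕ) (α β : Option (Option (Fin m))) :
    ∀ [DecidableEq (Fin m × Fin z)], (TT m z α ∩ TT m z β).card = rr m z α β := by
  intro _
  rcases α with _ | _ | i <;> rcases β with _ | _ | j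
  · simp [TT, rr]
  · simp [TT, rr]
  · have : TT m z none ∩ TT m z (some (some j)) = TT m z (some (some j)) := by
      ext p
      simp [TT]
    rw [this, card_TT]
    rfl
  · simp [TT, rr]
  · simp [TT, rr]
  · simp [TT, rr]
  · have : TT m z (some (some i)) ∩ TT m z none = TT m z (some (some i)) := by
      ext p
      simp [TT]
    rw [this, card_TT]
    rfl
  · simp [TT, rr]
  · by_cases hij : i = j
    · subst hij
      rw [Finset.inter_self, card_TT]
      simp [rr]
    · have : TT m z (some (some i)) ∩ TT m z (some (some j)) = ∅ := by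
        ext p
        rw [mem_inter, mem_TT, mem_TT]
        simp only [notMem_empty, iff_false, not_and]
        intro h1 h2
        exact hij (h1.symm.trans h2)
      rw [this]
      simp [rr, hij]

lemma card_TT_le (m z : ℕ) (α : Option (Option (Fin m))) : (TT m z α).card ≤ m * z := by
  calc (TT m z α).card ≤ (univ : Finset (Fin m × Fin z)).card := card_le_card (subset_univ _)
    _ = m * z := by simp

/-- the sum with the coefficients -/
lemma sum_cc (m z : ℕ) (H : ℕ → ℝ) :
    ∑ α, ∑ β, cc m α * cc m β * H (rr m z α β) = H (m * z) - m * H z + m * H 0 := by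
  simp only [Fintype.sum_option, cc, rr]
  have h : ∀ i : Fin m, ∑ j : Fin m, (-1 : ℝ) * -1 * H (if i = j then z else 0)
      = H z + (m - 1) * H 0 := by
    intro i
    have h1 : ∀ j : Fin m, (-1 : ℝ) * -1 * H (if i = j then z else 0)
        = H 0 + if i = j then H z - H 0 else 0 := by
      intro j
      split_ifs <;> ring
    rw [sum_congr rfl fun j _ => h1 j, sum_add_distrib, sum_ite_eq]
    simp
    ring
  simp only [sum_add_distrib, h]
  simp
  ring

lemma sum_cc_abs (m : ℕ) : ∑ α, ∑ β, |cc m α| * |cc m β| = (2 * m + 1) ^ 2 := by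
  rw [← sum_mul_sum, ← sq]
  congr 1
  simp only [Fintype.sum_option, cc]
  simp
  ring

/-- **Orthogonality.** -/
theorem HH_le (S : PKer d) (hd : 1 ≤ d) (n m z : ℕ) :
    m * (HH S n z - HH S n 0)
      ≤ S.v * n ^ 2 + (2 * m + 1) ^ 2 * (2 * (1 + 2 * (m * z)) * S.v * n) := by
  obtain ⟨k, F, hF⟩ := exists_vec S ((Fin m × Fin z) ⊕ (Fin n × Fin n))
  set Y : Option (Option (Fin m)) → EuclideanSpace ℝ (Fin k) :=
    fun α => ∑ x : Fin n, F (pp n (fun _ => False) x (TT m z α)) with hY
  set C : ℝ := 2 * (1 + 2 * (m * z)) * S.v * n with hC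
  have h1 : ∀ α β, |inner ℝ (Y α) (Y β) - HH S n (rr m z α β)| ≤ C := by
    intro α β
    have := inner_sum_le S hd n k (m * z) F hF (fun _ => False) (TT m z α) (TT m z β)
      (card_TT_le m z α) (card_TT_le m z β) (rr m z α β) (TT_inter m z α β) (fun _ _ h => h)
    push_cast at this
    exact this
  have h2 : 0 ≤ ∑ α, ∑ β, cc m α * cc m β * inner ℝ (Y α) (Y β) := by
    have h3 : inner ℝ (∑ α, cc m α • Y α) (∑ β, cc m β • Y β)
        = ∑ α, ∑ β, cc m α * cc m β * inner ℝ (Y α) (Y β) := by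
      rw [sum_inner]
      refine sum_congr rfl fun α _ => ?_
      rw [inner_sum]
      refine sum_congr rfl fun β _ => ?_
      rw [real_inner_smul_left, real_inner_smul_right]
      ring
    rw [← h3]
    exact real_inner_self_nonneg
  have h4 : ∑ α, ∑ β, cc m α * cc m β * inner ℝ (Y α) (Y β)
      ≤ ∑ α, ∑ β, cc m α * cc m β * HH S n (rr m z α β) + ∑ α, ∑ β, |cc m α| * |cc m β| * C := by
    rw [← sum_add_distrib]
    refine sum_le_sum fun α _ => ?_
    rw [← sum_add_distrib]
    refine sum_le_sum fun β _ => ?_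
    have h5 : cc m α * cc m β * (inner ℝ (Y α) (Y β) - HH S n (rr m z α β))
        ≤ |cc m α| * |cc m β| * C := by
      refine (le_abs_self _).trans ?_
      rw [abs_mul, abs_mul]
      exact mul_le_mul_of_nonneg_left (h1 α β) (by positivity)
    linarith
  rw [sum_cc m z (HH S n)] at h4
  have h6 : ∑ α, ∑ β, |cc m α| * |cc m β| * C = (2 * m + 1) ^ 2 * C := by
    rw [← sum_cc_abs]
    simp only [sum_mul]
  rw [h6] at h4
  have h7 : HH S n (m * z) ≤ S.v * n ^ 2 := by
    unfold HH
    have : ∀ x ∈ range n, ∑ y ∈ range n, kf S (x + 1) (y + 1) (m * z) ≤ n * S.v := by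
      intro x _
      refine (sum_le_sum fun y _ => (abs_le.1 (kf_le S hd (x + 1) (y + 1) (m * z))).2).trans ?_
      simp
    refine (sum_le_sum this).trans ?_
    simp
    nlinarith
  linarith

/-- the norm of the averaged difference -/
theorem norm_le (S : PKer d) (hd : 1 ≤ d) {ι : Type} [Fintype ι] (n m k z : ℕ) (hm : 1 ≤ m)
    (F : ((Fin d → ι ⊕ (Fin n × Fin n)) → Prop) → EuclideanSpace ℝ (Fin k))
    (hF : ∀ P Q, inner ℝ (F P) (F Q) = S.K (ι ⊕ (Fin n × Fin n)) P Q)
    (P : (Fin d → ι) → Prop) (Z : Finset ι) (hZ : Z.card = z)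
    (hP : ∀ c : Fin d → ι, (∀ t, c t ∈ Z) → ¬ P c) :
    ‖∑ x : Fin n, F (pp n P x Z) - ∑ x : Fin n, F (pp n P x ∅)‖ ^ 2
      ≤ S.v * n ^ 2 / m + ((2 * m + 1) ^ 2 * (1 + 2 * (m * z)) + 4 * (1 + 2 * z)) * (2 * S.v * n) := by
  set A := ∑ x : Fin n, F (pp n P x Z) with hA
  set B := ∑ x : Fin n, F (pp n P x ∅) with hB
  have hm0 : (0 : ℝ) < m := by exact_mod_cast hm
  have h1 := inner_sum_le S hd n k z F hF P Z Z hZ.le hZ.le z (by simp [hZ])
    (fun c hc => hP c fun t => (or_self_iff.1 (hc t)))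
  have h2 := inner_sum_le S hd n k z F hF P Z ∅ hZ.le (by simp) 0 (by simp)
    (fun c hc => hP c fun t => by simpa using hc t)
  have h3 := inner_sum_le S hd n k z F hF P ∅ ∅ (by simp) (by simp) 0 (by simp)
    (fun c hc => by
      have := hc ⟨0, hd⟩
      simp at this)
  rw [← hA] at h1 h2
  rw [← hB] at h2 h3
  have h4 : ‖A - B‖ ^ 2 = inner ℝ A A - 2 * inner ℝ A B + inner ℝ B B := by
    rw [norm_sub_sq_real, real_inner_self_eq_norm_sq, real_inner_self_eq_norm_sq]
  have h5 := HH_le S hd n m z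
  have h6 : HH S n z - HH S n 0
      ≤ S.v * n ^ 2 / m + (2 * m + 1) ^ 2 * (2 * (1 + 2 * (m * z)) * S.v * n) := by
    have h7 : HH S n z - HH S n 0
        ≤ (S.v * n ^ 2 + (2 * m + 1) ^ 2 * (2 * (1 + 2 * (m * z)) * S.v * n)) / m := by
      rw [le_div_iff₀ hm0]
      linarith
    have h8 : ((2 * m + 1) ^ 2 * (2 * (1 + 2 * (m * z)) * S.v * n)) / m
        ≤ (2 * m + 1) ^ 2 * (2 * (1 + 2 * (m * z)) * S.v * n) := by
      have := S.v_nonneg
      refine div_le_self (by positivity) ?_
      exact_mod_cast hm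
    rw [add_div] at h7
    linarith
  rw [h4]
  rw [abs_le] at h1 h2 h3
  nlinarith [h1.2, h2.1, h3.2]

end Pool.Agent.H56.TC
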