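import Mathlib
import Pool.Agent.H56.TC.Trans

set_option autoImplicit false

/-!
# Planted kernels: the averaged block absorbs a set of indices
-/

namespace Pool.Agent.H56.TC

open Finset Pool.Agent.H56.HJ

variable {d : ℕ}

/-- the block of the pool as an image of the standard block -/
def hx (ι : Type) (n : ℕ) (x : Fin n) : ι ⊕ Fin (x + 1) ↪ ι ⊕ (Fin n × Fin n) :=
  ⟨Sum.elim Sum.inl (fun j => Sum.inr (x, ⟨j, by omega⟩)), by
    rintro (a | a) (b | b) h
    · simpa using h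
    · simp at h
    · simp at h
    · simp at h
      congr 1
      exact Fin.ext h⟩

lemma hx_inl (ι : Type) (n : ℕ) (x : Fin n) :
    (Function.Embedding.inl : ι ↪ ι ⊕ Fin (x + 1)).trans (hx ι n x) = Function.Embedding.inl := by
  ext i
  rfl

lemma hx_image {ι : Type} (n : ℕ) (x : Fin n) (T : Set ι) :
    hx ι n x '' (Set.range Sum.inr ∪ Sum.inl '' T)
      = {w | w ∈ blk ι n x ∨ ∃ i ∈ T, w = Sum.inl i} := by
  ext w
  simp only [Set.mem_image, Set.mem_union, Set.mem_range, Set.mem_ofPred_eq, mem_blk]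
  constructor
  · rintro ⟨u, ⟨j, rfl⟩ | ⟨i, hi, rfl⟩, rfl⟩
    · exact Or.inl ⟨⟨j, by omega⟩, by
        rw [Fin.le_def]
        change (j : ℕ) ≤ x
        omega, rfl⟩
    · exact Or.inr ⟨i, hi, rfl⟩
  · rintro (⟨j, hj, rfl⟩ | ⟨i, hi, rfl⟩)
    · refine ⟨Sum.inr ⟨j, ?_⟩, Or.inl ⟨_, rfl⟩, rfl⟩
      rw [Fin.le_def] at hj
      omega
    · exact ⟨Sum.inl i, Or.inr ⟨i, hi, rfl⟩, rfl⟩

open Classical in
lemma pp_eq {ι : Type} (n : ℕ) (P : (Fin d → ι) → Prop) (x : Fin n) (T : Finset ι) :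
    pp n P x T = img (hx ι n x) (un (img Function.Embedding.inl P)
      (cs (Set.range Sum.inr ∪ Sum.inl '' (T : Set ι)))) := by
  rw [img_un, img_img, hx_inl, img_cs, hx_image]
  unfold pp
  congr 1
  funext c
  apply propext
  refine forall_congr' fun t => ?_
  simp only [mem_union, mem_map, Function.Embedding.inl_apply, Set.mem_ofPred_eq, mem_coe]
  refine or_congr Iff.rfl ?_
  constructor
  · rintro ⟨i, hi, h⟩
    exact ⟨i, hi, h.symm⟩
  · rintro ⟨i, hi, h⟩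
    exact ⟨i, hi, h.symm⟩

/-- elementary choice of the parameters -/
lemma choose_n (v : ℝ) (hv : 0 ≤ v) (z : ℕ) (ε : ℝ) (hε : 0 < ε) :
    ∃ m : ℕ, 1 ≤ m ∧ ∃ n₀ : ℕ, ∀ n : ℕ, n₀ ≤ n →
      v * (v * (n : ℝ) ^ 2 / m
        + ((2 * (m : ℝ) + 1) ^ 2 * (1 + 2 * (m * z)) + 4 * (1 + 2 * z)) * (2 * v * n))
        ≤ (ε * n) ^ 2 := by
  obtain ⟨m, hm⟩ := exists_nat_gt (2 * v * v / ε ^ 2)
  have hm1 : 1 ≤ m := by
    by_contra h
    have : m = 0 := by omega
    rw [this] at hm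
    have : 0 ≤ 2 * v * v / ε ^ 2 := by positivity
    simp at hm
    linarith
  have hm0 : (0 : ℝ) < m := by exact_mod_cast hm1
  set D : ℝ := ((2 * (m : ℝ) + 1) ^ 2 * (1 + 2 * (m * z)) + 4 * (1 + 2 * z)) * (2 * v) with hD
  have hD0 : 0 ≤ D := by positivity
  obtain ⟨n₀, hn₀⟩ := exists_nat_gt (2 * v * D / ε ^ 2)
  refine ⟨m, hm1, n₀, fun n hn => ?_⟩
  have h1 : 2 * v * v < ε ^ 2 * m := by
    rw [div_lt_iff₀ (by positivity)] at hm
    linarith
  have h2 : 2 * v * D ≤ ε ^ 2 * n := by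
    have : 2 * v * D / ε ^ 2 ≤ n := hn₀.le.trans (by exact_mod_cast hn)
    rw [div_le_iff₀ (by positivity)] at this
    linarith
  have h3 : v * (v * (n : ℝ) ^ 2 / m) ≤ (ε * n) ^ 2 / 2 := by
    have : v * (v * (n : ℝ) ^ 2 / m) = v * v * (n : ℝ) ^ 2 / m := by ring
    rw [this, div_le_iff₀ hm0]
    nlinarith [sq_nonneg (n : ℝ)]
  have hn0 : (0 : ℝ) ≤ n := Nat.cast_nonneg n
  have h4 : v * (D * n) ≤ (ε * n) ^ 2 / 2 := by nlinarith
  have h5 : v * (v * (n : ℝ) ^ 2 / m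
        + ((2 * (m : ℝ) + 1) ^ 2 * (1 + 2 * (m * z)) + 4 * (1 + 2 * z)) * (2 * v * n))
      = v * (v * (n : ℝ) ^ 2 / m) + v * (D * n) := by
    rw [hD]
    ring
  rw [h5]
  linarith

/-- **Absorption.** -/
theorem absorb (S : PKer d) (hd : 1 ≤ d) (z : ℕ) (ε : ℝ) (hε : 0 < ε) :
    ∃ n₀ : ℕ, ∀ n : ℕ, n₀ ≤ n → ∀ (ι : Type) [Fintype ι] (P Q : (Fin d → ι) → Prop)
      (Z : Finset ι), Z.card = z → (∀ c : Fin d → ι, (∀ t, c t ∈ Z) → ¬ P c) →
      |∑ x ∈ range n, (S.K (ι ⊕ Fin (x + 1)) (img Function.Embedding.inl Q)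
          (un (img Function.Embedding.inl P) (cs (Set.range Sum.inr ∪ Sum.inl '' (Z : Set ι))))
        - S.K (ι ⊕ Fin (x + 1)) (img Function.Embedding.inl Q)
          (un (img Function.Embedding.inl P) (cs (Set.range Sum.inr))))| ≤ ε * n := by
  obtain ⟨m, hm, n₀, hn₀⟩ := choose_n S.v S.v_nonneg z ε hε
  refine ⟨n₀, fun n hn ι _ P Q Z hZ hP => ?_⟩
  obtain ⟨k, F, hF⟩ := exists_vec S (ι ⊕ (Fin n × Fin n))
  have h1 := norm_le S hd n m k z hm F hF P Z hZ hP
  have h2 := hn₀ n hn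
  set u := ∑ x : Fin n, F (pp n P x Z) - ∑ x : Fin n, F (pp n P x ∅) with hu
  -- the sum as an inner product
  have h3 : ∑ x ∈ range n, (S.K (ι ⊕ Fin (x + 1)) (img Function.Embedding.inl Q)
          (un (img Function.Embedding.inl P) (cs (Set.range Sum.inr ∪ Sum.inl '' (Z : Set ι))))
        - S.K (ι ⊕ Fin (x + 1)) (img Function.Embedding.inl Q)
          (un (img Function.Embedding.inl P) (cs (Set.range Sum.inr))))
      = inner ℝ (F (img Function.Embedding.inl Q)) u := by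
    rw [hu, inner_sub_right, inner_sum, inner_sum, ← sum_sub_distrib,
      ← Fin.sum_univ_eq_sum_range (fun x => (S.K (ι ⊕ Fin (x + 1)) (img Function.Embedding.inl Q)
          (un (img Function.Embedding.inl P) (cs (Set.range Sum.inr ∪ Sum.inl '' (Z : Set ι))))
        - S.K (ι ⊕ Fin (x + 1)) (img Function.Embedding.inl Q)
          (un (img Function.Embedding.inl P) (cs (Set.range Sum.inr)))))]
    refine sum_congr rfl fun x _ => ?_
    rw [hF, hF, pp_eq, pp_eq]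
    have e1 : (img Function.Embedding.inl Q : (Fin d → ι ⊕ (Fin n × Fin n)) → Prop)
        = img (hx ι n x) (img Function.Embedding.inl Q) := by
      rw [img_img, hx_inl]
    rw [e1, K_img, K_img]
    simp
  have h4 : ‖F (img Function.Embedding.inl Q)‖ ^ 2 = S.v := by
    rw [← real_inner_self_eq_norm_sq, hF]
    exact S.same _ hd _ _ fun _ => Iff.rfl
  rw [h3]
  have h5 : (inner ℝ (F (img Function.Embedding.inl Q)) u) ^ 2 ≤ (ε * n) ^ 2 := by
    have h6 := abs_real_inner_le_norm (F (img Function.Embedding.inl Q)) u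
    have h7 : (inner ℝ (F (img Function.Embedding.inl Q)) u) ^ 2
        ≤ (‖F (img Function.Embedding.inl Q)‖ * ‖u‖) ^ 2 := by
      rw [← sq_abs]
      exact pow_le_pow_left₀ (abs_nonneg _) h6 2
    rw [mul_pow, h4] at h7
    refine h7.trans (le_trans ?_ h2)
    exact mul_le_mul_of_nonneg_left h1 S.v_nonneg
  exact abs_le_of_sq_le_sq h5 (by positivity)

end Pool.Agent.H56.TC
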