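import Mathlib
import Pool.Agent.H56.TC.Trans

set_option autoImplicit false

/-!
# Planted kernels: strong locality

Common cells which have an index in a block `X`, whose only cells in the difference are those of the
full cube over `X ∪ Z`, and an index outside of `X ∪ Z` do not matter.
-/

namespace Pool.Agent.H56.TC

open Finset Pool.Agent.H56.HJ

variable {d : ℕ}

open Classical in
/-- the copies -/
noncomputable def cp {ι : Type} (m : ℕ) (X : Set ι) (i : Fin m × Bool) :
    ι ↪ ι ⊕ ((Fin m × Bool) × ι) :=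
  ⟨fun w => if w ∈ X then Sum.inr (i, w) else Sum.inl w, by
    intro a b h
    simp only at h
    split_ifs at h with h1 h2 h2
    · simpa using h
    · simpa using h⟩

lemma cp_mem {ι : Type} {m : ℕ} {X : Set ι} (i : Fin m × Bool) {w : ι} (hw : w ∈ X) :
    cp m X i w = Sum.inr (i, w) := by
  simp [cp, hw]

lemma cp_notMem {ι : Type} {m : ℕ} {X : Set ι} (i : Fin m × Bool) {w : ι} (hw : w ∉ X) :
    cp m X i w = Sum.inl w := by
  simp [cp, hw]

lemma cp_eq {ι : Type} {m : ℕ} {X : Set ι} {i j : Fin m × Bool} {w w' : ι} (hw : w ∈ X)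
    (h : cp m X i w = cp m X j w') : i = j ∧ w = w' := by
  rw [cp_mem i hw] at h
  by_cases h1 : w' ∈ X
  · rw [cp_mem j h1] at h
    have := Sum.inr_injective h
    exact ⟨congrArg Prod.fst this, congrArg Prod.snd this⟩
  · rw [cp_notMem j h1] at h
    cases h

/-- a real number bounded by all `C / m` -/
lemma eq_of_sq_le (a b C : ℝ) (hC : 0 ≤ C) (h : ∀ m : ℕ, 1 ≤ m → (m * (a - b)) ^ 2 ≤ C * m) :
    a = b := by
  by_contra hne
  have h0 : 0 < (a - b) ^ 2 := by
    have : a - b ≠ 0 := sub_ne_zero.2 hne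
    positivity
  obtain ⟨m, hm⟩ := exists_nat_gt (C / (a - b) ^ 2)
  have hm1 : 1 ≤ m := by
    by_contra h1
    have : m = 0 := by omega
    rw [this] at hm
    have : 0 ≤ C / (a - b) ^ 2 := by positivity
    simp at hm
    linarith
  have h2 := h m hm1
  rw [div_lt_iff₀ h0] at hm
  have hm0 : (0 : ℝ) < m := by exact_mod_cast hm1
  have : (m * (a - b)) ^ 2 = m * (m * (a - b) ^ 2) := by ring
  rw [this] at h2
  nlinarith

/-- **Strong locality.** -/
theorem strong (S : PKer d) (hd : 1 ≤ d) {ι : Type} [Fintype ι] (P Q C : (Fin d → ι) → Prop)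
    (X Z : Set ι) (hPX : ∀ c, P c → ∀ t, c t ∉ X) (hQX : ∀ c, Q c → ∀ t, c t ∉ X)
    (hXZ : ∀ i ∈ Z, i ∉ X) (hQZ : ∀ c : Fin d → ι, (∀ t, c t ∈ Z) → ¬ Q c)
    (hC : ∀ c, C c → (∃ t, c t ∈ X) ∧ (∃ t, c t ∉ X ∧ c t ∉ Z)) :
    S.K ι (un P C) (un (un Q (cs (X ∪ Z))) C) = S.K ι P (un Q (cs (X ∪ Z))) := by
  classical
  refine eq_of_sq_le _ _ (4 * S.v ^ 2) (by positivity) fun m hm => ?_
  set k1 := S.K ι (un P C) (un (un Q (cs (X ∪ Z))) C) with hk1
  set k0 := S.K ι P (un Q (cs (X ∪ Z))) with hk0
  obtain ⟨k, F, hF⟩ := exists_vec S (ι ⊕ ((Fin m × Bool) × ι))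
  set M : (Fin d → ι ⊕ ((Fin m × Bool) × ι)) → Prop :=
    fun c' => ∃ j : Fin m, img (cp m X (j, true)) C c' with hM
  set a : Fin m × Bool → EuclideanSpace ℝ (Fin k) := fun i =>
    F (un (un (img Function.Embedding.inl Q) (cs (cp m X i '' (X ∪ Z)))) M) with ha
  set b : EuclideanSpace ℝ (Fin k) := F (un (img Function.Embedding.inl P) M) with hb
  have hPi : ∀ (R : (Fin d → ι) → Prop), (∀ c, R c → ∀ t, c t ∉ X) → ∀ i : Fin m × Bool,
      (img Function.Embedding.inl R : (Fin d → ι ⊕ ((Fin m × Bool) × ι)) → Prop)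
        = img (cp m X i) R := by
    intro R hR i
    refine img_congr _ _ _ fun c hc t => ?_
    rw [cp_notMem i (hR c hc t)]
    rfl
  -- the common part
  have hMi : ∀ (i : Fin m × Bool) (c : Fin d → ι),
      M (fun t => cp m X i (c t)) ↔ (i.2 = true ∧ C c) := by
    intro i c
    constructor
    · rintro ⟨j, c₀, hc₀, h⟩
      obtain ⟨⟨t, ht⟩, -⟩ := hC c₀ hc₀
      have h1 := cp_eq ht (congrFun h t)
      refine ⟨by rw [← h1.1], ?_⟩
      have : c₀ = c := by
        funext s
        have h2 : cp m X (j, true) (c₀ s) = cp m X i (c s) := congrFun h s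
        rw [h1.1] at h2
        exact (cp m X i).injective h2
      rwa [← this]
    · rintro ⟨h1, h2⟩
      refine ⟨i.1, c, h2, ?_⟩
      have : (i.1, true) = i := Prod.ext rfl h1.symm
      rw [this]
  -- the inner products with `b`
  have hba : ∀ i : Fin m × Bool, inner ℝ b (a i) = if i.2 = true then k1 else k0 := by
    intro i
    rw [hb, ha]
    simp only
    rw [hF, S.loc (cp m X i)]
    · have e0 : ∀ c : Fin d → ι, cs (cp m X i '' (X ∪ Z)) (fun t => cp m X i (c t))
          ↔ cs (X ∪ Z) c := by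
        intro c
        refine forall_congr' fun t => ?_
        exact Function.Injective.mem_set_image (cp m X i).injective
      split_ifs with hi
      · rw [hk1]
        refine S.congr (fun c => ?_) (fun c => ?_)
        · simp only [un]
          rw [hMi i c, hPi P hPX i, img_comp]
          simp [hi]
        · simp only [un]
          rw [hMi i c, hPi Q hQX i, img_comp, e0]
          simp [hi]
      · rw [hk0]
        refine S.congr (fun c => ?_) (fun c => ?_)
        · simp only [un]
          rw [hMi i c, hPi P hPX i, img_comp]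
          simp [hi]
        · simp only [un]
          rw [hMi i c, hPi Q hQX i, img_comp, e0]
          simp [hi]
    · rintro c ⟨t, ht⟩
      simp only [un]
      rw [hPi P hPX i, hPi Q hQX i]
      constructor
      · rintro (h | h)
        · exact (ht (img_range _ _ h t)).elim
        · exact Or.inr h
      · rintro ((h | h) | h)
        · exact (ht (img_range _ _ h t)).elim
        · obtain ⟨w, -, hw⟩ := h t
          exact (ht ⟨w, hw⟩).elim
        · exact Or.inr h
  -- the inner products of two of the vectors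
  obtain ⟨k2, haa⟩ : ∃ k2 : ℝ, |k2| ≤ S.v ∧ ∀ i j : Fin m × Bool, i ≠ j →
      inner ℝ (a i) (a j) = k2 := by
    refine ⟨kf S X.toFinset.card X.toFinset.card Z.toFinset.card, kf_le S hd _ _ _,
      fun i j hij => ?_⟩
    rw [ha]
    simp only
    rw [hF]
    have e1 : ∀ i : Fin m × Bool,
        un (un (img Function.Embedding.inl Q) (cs (cp m X i '' (X ∪ Z)))) M
        = un (un (img Function.Embedding.inl Q) M) (cu ((X.toFinset ∪ Z.toFinset).map (cp m X i)))
        := by
      intro i
      funext c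
      apply propext
      simp only [un]
      have : cs (cp m X i '' (X ∪ Z)) c
          ↔ cu ((X.toFinset ∪ Z.toFinset).map (cp m X i)) c := by
        refine forall_congr' fun t => ?_
        simp only [Set.mem_image, Set.mem_union, mem_map, mem_union, Set.mem_toFinset]
      rw [this]
      tauto
    rw [e1, e1, cubes]
    · have mX : ∀ (i : Fin m × Bool) (w : ι ⊕ ((Fin m × Bool) × ι)),
          w ∈ (X.toFinset ∪ Z.toFinset).map (cp m X i)
          ↔ (∃ x ∈ X, w = Sum.inr (i, x)) ∨ ∃ x ∈ Z, w = Sum.inl x := by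
        intro i w
        simp only [mem_map, mem_union, Set.mem_toFinset]
        constructor
        · rintro ⟨x, hx | hx, rfl⟩
          · exact Or.inl ⟨x, hx, cp_mem i hx⟩
          · exact Or.inr ⟨x, hx, cp_notMem i (hXZ x hx)⟩
        · rintro (⟨x, hx, rfl⟩ | ⟨x, hx, rfl⟩)
          · exact ⟨x, Or.inl hx, cp_mem i hx⟩
          · exact ⟨x, Or.inr hx, cp_notMem i (hXZ x hx)⟩
      have f1 : ∀ i j : Fin m × Bool, i ≠ j →
          ((X.toFinset ∪ Z.toFinset).map (cp m X i))
            \ ((X.toFinset ∪ Z.toFinset).map (cp m X j))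
          = X.toFinset.map (cp m X i) := by
        intro i j hij
        ext w
        rw [mem_sdiff, mX, mX, mem_map]
        simp only [Set.mem_toFinset]
        constructor
        · rintro ⟨⟨x, hx, rfl⟩ | ⟨x, hx, rfl⟩, h⟩
          · exact ⟨x, hx, cp_mem i hx⟩
          · exact (h (Or.inr ⟨x, hx, rfl⟩)).elim
        · rintro ⟨x, hx, rfl⟩
          rw [cp_mem i hx]
          refine ⟨Or.inl ⟨x, hx, rfl⟩, ?_⟩
          rintro (⟨y, hy, h⟩ | ⟨y, hy, h⟩)
          · have := Sum.inr_injective h
            exact hij (congrArg Prod.fst this)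
          · cases h
      have f2 : ((X.toFinset ∪ Z.toFinset).map (cp m X i))
            ∩ ((X.toFinset ∪ Z.toFinset).map (cp m X j))
          = Z.toFinset.map (cp m X i) := by
        ext w
        rw [mem_inter, mX, mX, mem_map]
        simp only [Set.mem_toFinset]
        constructor
        · rintro ⟨⟨x, hx, rfl⟩ | ⟨x, hx, rfl⟩, h⟩
          · rcases h with ⟨y, hy, h⟩ | ⟨y, hy, h⟩
            · have := Sum.inr_injective h
              exact (hij (congrArg Prod.fst this)).elim
            · cases h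
          · exact ⟨x, hx, cp_notMem i (hXZ x hx)⟩
        · rintro ⟨x, hx, rfl⟩
          rw [cp_notMem i (hXZ x hx)]
          exact ⟨Or.inr ⟨x, hx, rfl⟩, Or.inr ⟨x, hx, rfl⟩⟩
      rw [f1 i j hij, f1 j i hij.symm, f2, card_map, card_map, card_map]
    · intro c hc
      have hc' : ∀ t, (∃ i, ∃ x ∈ X, c t = Sum.inr (i, x)) ∨ ∃ x ∈ Z, c t = Sum.inl x := by
        intro t
        have := hc t
        simp only [mem_union, mem_map, Set.mem_toFinset] at this
        rcases this with ⟨x, hx | hx, h⟩ | ⟨x, hx | hx, h⟩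
        · exact Or.inl ⟨i, x, hx, by rw [← h, cp_mem i hx]⟩
        · exact Or.inr ⟨x, hx, by rw [← h, cp_notMem i (hXZ x hx)]⟩
        · exact Or.inl ⟨j, x, hx, by rw [← h, cp_mem j hx]⟩
        · exact Or.inr ⟨x, hx, by rw [← h, cp_notMem j (hXZ x hx)]⟩
      rintro (⟨e, he, rfl⟩ | ⟨j, e, he, rfl⟩)
      · refine hQZ e (fun t => ?_) he
        rcases hc' t with ⟨i, x, hx, h⟩ | ⟨x, hx, h⟩
        · simp at h
        · have : e t = x := Sum.inl_injective h
          rwa [this]
      · obtain ⟨-, t, ht1, ht2⟩ := hC e he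
        rcases hc' t with ⟨i, x, hx, h⟩ | ⟨x, hx, h⟩
        · change cp m X (j, true) (e t) = _ at h
          rw [cp_notMem _ ht1] at h
          cases h
        · change cp m X (j, true) (e t) = _ at h
          rw [cp_notMem _ ht1] at h
          have : e t = x := Sum.inl_injective h
          exact ht2 (this ▸ hx)
  obtain ⟨hk2, haa⟩ := haa
  have hdiag : ∀ i, inner ℝ (a i) (a i) = S.v := by
    intro i
    rw [ha]
    simp only
    rw [hF]
    exact S.same _ hd _ _ fun _ => Iff.rfl
  have hbb : inner ℝ b b = S.v := by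
    rw [hb, hF]
    exact S.same _ hd _ _ fun _ => Iff.rfl
  set sg : Fin m × Bool → ℝ := fun i => if i.2 = true then 1 else -1 with hsg
  have hs0 : ∑ i, sg i = 0 := by
    rw [Fintype.sum_prod_type]
    simp [hsg]
  have hs1 : ∀ i, sg i * sg i = 1 := by
    intro i
    simp only [hsg]
    split_ifs <;> norm_num
  set u := ∑ i, sg i • a i with hu
  have hbu : inner ℝ b u = m * (k1 - k0) := by
    rw [hu, inner_sum]
    have : ∀ i, inner ℝ b (sg i • a i) = if i.2 = true then k1 else -k0 := by
      intro i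
      rw [real_inner_smul_right, hba i]
      simp only [hsg]
      split_ifs <;> ring
    rw [sum_congr rfl fun i _ => this i, Fintype.sum_prod_type]
    simp
    ring
  have huu : inner ℝ u u = 2 * m * (S.v - k2) := by
    rw [hu, sum_inner]
    have h1 : ∀ i, inner ℝ (sg i • a i) (∑ j, sg j • a j)
        = (S.v - k2) + sg i * k2 * ∑ j, sg j := by
      intro i
      rw [inner_sum, mul_sum]
      have h2 : ∀ j, inner ℝ (sg i • a i) (sg j • a j)
          = (if i = j then (S.v - k2) else 0) + sg i * k2 * sg j := by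
        intro j
        rw [real_inner_smul_left, real_inner_smul_right]
        by_cases hij : i = j
        · subst hij
          rw [hdiag, if_pos rfl]
          have := hs1 i
          linear_combination (S.v - k2) * this
        · rw [haa i j hij, if_neg hij]
          ring
      rw [sum_congr rfl fun j _ => h2 j, sum_add_distrib, sum_ite_eq, if_pos (mem_univ _)]
    rw [sum_congr rfl fun i _ => h1 i, hs0]
    simp
    ring
  have h1 := abs_real_inner_le_norm b u
  have h2 : (inner ℝ b u) ^ 2 ≤ (‖b‖ * ‖u‖) ^ 2 := by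
    rw [← sq_abs]
    exact pow_le_pow_left₀ (abs_nonneg _) h1 2
  rw [mul_pow, ← real_inner_self_eq_norm_sq, ← real_inner_self_eq_norm_sq, hbb, huu, hbu] at h2
  have hv := S.v_nonneg
  have hm0 : (0 : ℝ) ≤ m := Nat.cast_nonneg m
  rw [abs_le] at hk2
  have h3 : S.v * (2 * m * (S.v - k2)) ≤ 4 * S.v ^ 2 * m := by
    have : S.v - k2 ≤ 2 * S.v := by linarith [hk2.1]
    nlinarith [mul_nonneg hv hm0]
  exact h2.trans h3

end Pool.Agent.H56.TC
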