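import Mathlib
import Pool.Agent.H56.TC.Four
import Pool.Agent.H56.TC.Strong

set_option autoImplicit false

/-!
# Planted kernels: common cubes do not matter in the presence of an averaged block
-/

namespace Pool.Agent.H56.TC

open Finset Pool.Agent.H56.HJ

variable {d : ℕ}

/-- a cell has all its indices on the left or an index on the right -/
lemma cell_cases {ι β : Type} (c : Fin d → ι ⊕ β) :
    (∃ e : Fin d → ι, c = fun t => Function.Embedding.inl (e t))
      ∨ ∃ t, c t ∈ Set.range (Sum.inr : β → ι ⊕ β) := by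
  by_cases h : ∃ t, c t ∈ Set.range (Sum.inr : β → ι ⊕ β)
  · exact Or.inr h
  · push Not at h
    left
    have : ∀ t, ∃ i : ι, c t = Sum.inl i := by
      intro t
      rcases hct : c t with i | b
      · exact ⟨i, rfl⟩
      · exact (h t ⟨b, hct.symm⟩).elim
    choose e he using this
    exact ⟨e, funext he⟩

lemma img_inl_not {ι β : Type} (P : (Fin d → ι) → Prop) (c : Fin d → ι ⊕ β)
    (hc : ∃ t, c t ∈ Set.range (Sum.inr : β → ι ⊕ β)) : ¬ img Function.Embedding.inl P c := by
  rintro ⟨e, -, rfl⟩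
  obtain ⟨t, b, hb⟩ := hc
  simp at hb

lemma img_inl_avoid {ι β : Type} (P : (Fin d → ι) → Prop) (c : Fin d → ι ⊕ β)
    (hc : img Function.Embedding.inl P c) (t : Fin d) :
    c t ∉ Set.range (Sum.inr : β → ι ⊕ β) := by
  intro h
  exact img_inl_not P c ⟨t, h⟩ hc

section
variable (S : PKer d) (hd : 1 ≤ d) {ι β : Type} [Fintype ι] [Fintype β]
  (P Q : (Fin d → ι) → Prop) (Z : Finset ι)

include hd in
lemma swapA : S.K (ι ⊕ β) (img Function.Embedding.inl (un P (cu Z)))
      (un (img Function.Embedding.inl (un Q (cu Z))) (cs (Set.range Sum.inr)))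
    = (compl S).K (ι ⊕ β) (img Function.Embedding.inl (fun c => ¬ (Q c ∨ cu Z c)))
      (un (img Function.Embedding.inl (fun c => ¬ (P c ∨ cu Z c))) (cs (Set.range Sum.inr))) := by
  set C₁ : (Fin d → ι ⊕ β) → Prop := fun c => (∃ t, c t ∈ Set.range (Sum.inr : β → ι ⊕ β))
    ∧ (∃ t, c t ∉ Set.range (Sum.inr : β → ι ⊕ β)) with hC₁
  have h := strong S hd (ι := ι ⊕ β) (img Function.Embedding.inl (un P (cu Z)))
    (img Function.Embedding.inl (un Q (cu Z))) C₁ (Set.range Sum.inr) ∅
    (fun c hc t => img_inl_avoid _ c hc t) (fun c hc t => img_inl_avoid _ c hc t)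
    (fun i hi => hi.elim) (fun c hc => (hc ⟨0, hd⟩).elim)
    (fun c hc => ⟨hc.1, hc.2.imp fun t ht => ⟨ht, fun h => h⟩⟩)
  rw [Set.union_empty] at h
  rw [← h, compl_K' S, (compl S).symm]
  refine (compl S).congr (fun c => ?_) (fun c => ?_)
  · rcases cell_cases c with ⟨e, rfl⟩ | hc
    · rw [img_comp]
      simp only [un, img_comp, hC₁]
      have h1 : ¬ cs (Set.range (Sum.inr : β → ι ⊕ β))
          (fun t => Function.Embedding.inl (e t)) := by
        intro h
        obtain ⟨b, hb⟩ := h ⟨0, hd⟩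
        simp at hb
      have h2 : ¬ ∃ t, Function.Embedding.inl (e t) ∈ Set.range (Sum.inr : β → ι ⊕ β) := by
        rintro ⟨t, b, hb⟩
        simp at hb
      tauto
    · have h1 := img_inl_not (un Q (cu Z)) c hc
      have h2 := img_inl_not (fun c => ¬ (Q c ∨ cu Z c)) c hc
      simp only [un] at h1 ⊢
      constructor
      · intro h3
        exfalso
        refine h3 ?_
        by_cases h4 : ∃ t, c t ∉ Set.range (Sum.inr : β → ι ⊕ β)
        · exact Or.inr ⟨hc, h4⟩
        · push Not at h4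
          exact Or.inl (Or.inr h4)
      · intro h3
        exact (h2 h3).elim
  · rcases cell_cases c with ⟨e, rfl⟩ | hc
    · simp only [un, img_comp, hC₁]
      have h1 : ¬ cs (Set.range (Sum.inr : β → ι ⊕ β))
          (fun t => Function.Embedding.inl (e t)) := by
        intro h
        obtain ⟨b, hb⟩ := h ⟨0, hd⟩
        simp at hb
      have h2 : ¬ ∃ t, Function.Embedding.inl (e t) ∈ Set.range (Sum.inr : β → ι ⊕ β) := by
        rintro ⟨t, b, hb⟩
        simp at hb
      tauto
    · have h1 := img_inl_not (un P (cu Z)) c hc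
      have h2 := img_inl_not (fun c => ¬ (P c ∨ cu Z c)) c hc
      simp only [un] at h1 ⊢
      constructor
      · intro h3
        right
        intro t
        by_contra h4
        exact h3 (Or.inr ⟨hc, t, h4⟩)
      · rintro (h3 | h3)
        · exact (h2 h3).elim
        · rintro (h4 | ⟨-, t, h4⟩)
          · exact h1 h4
          · exact h4 (h3 t)

include hd in
lemma swapB (hP : ∀ c : Fin d → ι, (∀ t, c t ∈ Z) → ¬ P c)
    (hQ : ∀ c : Fin d → ι, (∀ t, c t ∈ Z) → ¬ Q c) :
    (compl S).K (ι ⊕ β) (img Function.Embedding.inl (fun c => ¬ (Q c ∨ cu Z c)))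
      (un (img Function.Embedding.inl (fun c => ¬ (P c ∨ cu Z c)))
        (cs (Set.range Sum.inr ∪ Sum.inl '' (Z : Set ι))))
    = S.K (ι ⊕ β) (img Function.Embedding.inl P)
      (un (img Function.Embedding.inl Q) (cs (Set.range Sum.inr ∪ Sum.inl '' (Z : Set ι)))) := by
  set C₂ : (Fin d → ι ⊕ β) → Prop := fun c => (∃ t, c t ∈ Set.range (Sum.inr : β → ι ⊕ β))
    ∧ (∃ t, c t ∉ Set.range (Sum.inr : β → ι ⊕ β) ∧ c t ∉ Sum.inl '' (Z : Set ι)) with hC₂
  have h := strong S hd (ι := ι ⊕ β) (img Function.Embedding.inl P)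
    (img Function.Embedding.inl Q) C₂ (Set.range Sum.inr) (Sum.inl '' (Z : Set ι))
    (fun c hc t => img_inl_avoid _ c hc t) (fun c hc t => img_inl_avoid _ c hc t)
    (by
      rintro i ⟨z, -, rfl⟩ ⟨b, hb⟩
      cases hb)
    (by
      rintro c hc ⟨e, he, rfl⟩
      refine hQ e (fun t => ?_) he
      obtain ⟨z, hz, hze⟩ := hc t
      have : z = e t := Sum.inl_injective hze
      rw [← this]
      exact hz)
    (fun c hc => hc)
  rw [← h, compl_K, S.symm]
  have hcs : ∀ e : Fin d → ι, cs (Set.range (Sum.inr : β → ι ⊕ β) ∪ Sum.inl '' (Z : Set ι))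
      (fun t => Function.Embedding.inl (e t)) ↔ cu Z e := by
    intro e
    refine forall_congr' fun t => ?_
    simp only [Function.Embedding.inl_apply, Set.mem_union, Set.mem_range, Set.mem_image, mem_coe]
    constructor
    · rintro (⟨b, hb⟩ | ⟨z, hz, hze⟩)
      · cases hb
      · exact Sum.inl_injective hze ▸ hz
    · exact fun h => Or.inr ⟨_, h, rfl⟩
  refine S.congr (fun c => ?_) (fun c => ?_)
  · rcases cell_cases c with ⟨e, rfl⟩ | hc
    · simp only [un, img_comp, hcs, hC₂]
      have h2 : ¬ ∃ t, Function.Embedding.inl (e t) ∈ Set.range (Sum.inr : β → ι ⊕ β) := by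
        rintro ⟨t, b, hb⟩
        simp at hb
      have h3 : cu Z e → ¬ P e := hP e
      tauto
    · have h1 := img_inl_not P c hc
      have h2 := img_inl_not (fun c => ¬ (P c ∨ cu Z c)) c hc
      simp only [un]
      constructor
      · intro h3
        right
        refine ⟨hc, ?_⟩
        by_contra h4
        push Not at h4
        refine h3 (Or.inr fun t => ?_)
        by_cases h5 : c t ∈ Set.range (Sum.inr : β → ι ⊕ β)
        · exact Or.inl h5
        · exact Or.inr (h4 t h5)
      · rintro (h3 | ⟨-, t, h3, h4⟩)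
        · exact (h1 h3).elim
        · rintro (h5 | h5)
          · exact h2 h5
          · rcases h5 t with h6 | h6
            · exact h3 h6
            · exact h4 h6
  · rcases cell_cases c with ⟨e, rfl⟩ | hc
    · simp only [un, img_comp, hcs, hC₂]
      have h2 : ¬ ∃ t, Function.Embedding.inl (e t) ∈ Set.range (Sum.inr : β → ι ⊕ β) := by
        rintro ⟨t, b, hb⟩
        simp at hb
      tauto
    · have h1 := img_inl_not Q c hc
      have h2 := img_inl_not (fun c => ¬ (Q c ∨ cu Z c)) c hc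
      simp only [un]
      refine iff_of_true h2 ?_
      by_cases h4 : ∃ t, c t ∉ Set.range (Sum.inr : β → ι ⊕ β) ∧ c t ∉ Sum.inl '' (Z : Set ι)
      · exact Or.inr ⟨hc, h4⟩
      · push Not at h4
        refine Or.inl (Or.inr fun t => ?_)
        by_cases h5 : c t ∈ Set.range (Sum.inr : β → ι ⊕ β)
        · exact Or.inl h5
        · exact Or.inr (h4 t h5)

end

/-- **Common cubes do not matter.** -/
theorem swap (S : PKer d) (hd : 1 ≤ d) (z : ℕ) (ε : ℝ) (hε : 0 < ε) :
    ∃ n₀ : ℕ, ∀ n : ℕ, n₀ ≤ n → ∀ (ι : Type) [Fintype ι] (P Q : (Fin d → ι) → Prop)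
      (Z : Finset ι), Z.card = z → (∀ c : Fin d → ι, (∀ t, c t ∈ Z) → ¬ P c) →
      (∀ c : Fin d → ι, (∀ t, c t ∈ Z) → ¬ Q c) →
      |∑ x ∈ range n, (S.K (ι ⊕ Fin (x + 1)) (img Function.Embedding.inl (un P (cu Z)))
          (un (img Function.Embedding.inl (un Q (cu Z))) (cs (Set.range Sum.inr)))
        - S.K (ι ⊕ Fin (x + 1)) (img Function.Embedding.inl P)
          (un (img Function.Embedding.inl Q) (cs (Set.range Sum.inr))))| ≤ ε * n := by
  obtain ⟨n₁, h₁⟩ := absorb S hd z (ε / 2) (by positivity)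
  obtain ⟨n₂, h₂⟩ := absorb (compl S) hd z (ε / 2) (by positivity)
  refine ⟨max n₁ n₂, fun n hn ι _ P Q Z hZ hP hQ => ?_⟩
  have a1 := h₁ n (le_of_max_le_left hn) ι Q P Z hZ hQ
  have a2 := h₂ n (le_of_max_le_right hn) ι (fun c => ¬ (P c ∨ cu Z c))
    (fun c => ¬ (Q c ∨ cu Z c)) Z hZ (fun c hc h => h (Or.inr hc))
  have e1 : ∀ x ∈ range n, (S.K (ι ⊕ Fin (x + 1)) (img Function.Embedding.inl (un P (cu Z)))
          (un (img Function.Embedding.inl (un Q (cu Z))) (cs (Set.range Sum.inr)))
        - S.K (ι ⊕ Fin (x + 1)) (img Function.Embedding.inl P)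
          (un (img Function.Embedding.inl Q) (cs (Set.range Sum.inr))))
      = (S.K (ι ⊕ Fin (x + 1)) (img Function.Embedding.inl P)
          (un (img Function.Embedding.inl Q) (cs (Set.range Sum.inr ∪ Sum.inl '' (Z : Set ι))))
        - S.K (ι ⊕ Fin (x + 1)) (img Function.Embedding.inl P)
          (un (img Function.Embedding.inl Q) (cs (Set.range Sum.inr))))
      - ((compl S).K (ι ⊕ Fin (x + 1)) (img Function.Embedding.inl (fun c => ¬ (Q c ∨ cu Z c)))
          (un (img Function.Embedding.inl (fun c => ¬ (P c ∨ cu Z c)))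
            (cs (Set.range Sum.inr ∪ Sum.inl '' (Z : Set ι))))
        - (compl S).K (ι ⊕ Fin (x + 1)) (img Function.Embedding.inl (fun c => ¬ (Q c ∨ cu Z c)))
          (un (img Function.Embedding.inl (fun c => ¬ (P c ∨ cu Z c)))
            (cs (Set.range Sum.inr)))) := by
    intro x _
    rw [swapA S hd P Q Z, swapB S hd P Q Z hP hQ]
    ring
  rw [sum_congr rfl e1, sum_sub_distrib]
  rw [abs_le] at a1 a2 ⊢
  constructor <;> linarith [a1.1, a1.2, a2.1, a2.2]

end Pool.Agent.H56.TC
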