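import Mathlib
import Pool.Agent.H56.TC.Swap

set_option autoImplicit false

/-!
# Planted kernels: three cubes
-/

namespace Pool.Agent.H56.TC

open Finset Pool.Agent.H56.HJ

variable {d : ℕ}

lemma tr (S : PKer d) {ι : Type} [Fintype ι] (L R : (Fin d → ι) → Prop) (X : Finset ι)
    (Z : Finset ι) (x : ℕ) (hX : X.card = x + 1) (hL : ∀ c, L c → ∀ t, c t ∉ X)
    (hR : ∀ c, R c → ∀ t, c t ∉ X) (hZ : ∀ i ∈ Z, i ∉ X) :
    S.K ι L (un R (cs ((X : Set ι) ∪ (Z : Set ι))))
      = S.K (ι ⊕ Fin (x + 1)) (img Function.Embedding.inl L)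
        (un (img Function.Embedding.inl R) (cs (Set.range Sum.inr ∪ Sum.inl '' (Z : Set ι)))) := by
  classical
  have e : X ≃ Fin (x + 1) := X.equivFin.trans (finCongr hX)
  set h : ι ↪ ι ⊕ Fin (x + 1) :=
    ⟨fun i => if hi : i ∈ X then Sum.inr (e ⟨i, hi⟩) else Sum.inl i, by
      intro a b hab
      simp only at hab
      split_ifs at hab with h1 h2 h2
      · have := e.injective (Sum.inr_injective hab)
        exact congrArg Subtype.val this
      · exact Sum.inl_injective hab⟩ with hh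
  have h1 : ∀ i ∈ X, ∃ y, h i = Sum.inr y := by
    intro i hi
    exact ⟨_, by simp only [hh, Function.Embedding.coeFn_mk, dif_pos hi]; rfl⟩
  have h2 : ∀ i, i ∉ X → h i = Sum.inl i := by
    intro i hi
    simp only [hh, Function.Embedding.coeFn_mk, dif_neg hi]
  have h3 : ∀ y : Fin (x + 1), ∃ i ∈ X, h i = Sum.inr y := by
    intro y
    refine ⟨(e.symm y : ι), (e.symm y).2, ?_⟩
    simp only [hh, Function.Embedding.coeFn_mk, dif_pos (e.symm y).2]
    simp
  have e1 : ∀ R : (Fin d → ι) → Prop, (∀ c, R c → ∀ t, c t ∉ X) →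
      (img Function.Embedding.inl R : (Fin d → ι ⊕ Fin (x + 1)) → Prop) = img h R := by
    intro R hR
    refine img_congr _ _ _ fun c hc t => ?_
    rw [h2 _ (hR c hc t)]
    rfl
  have e2 : h '' ((X : Set ι) ∪ (Z : Set ι)) = Set.range Sum.inr ∪ Sum.inl '' (Z : Set ι) := by
    ext w
    simp only [Set.mem_image, Set.mem_union, Set.mem_range, mem_coe]
    constructor
    · rintro ⟨i, hi | hi, rfl⟩
      · obtain ⟨y, hy⟩ := h1 i hi
        exact Or.inl ⟨y, hy.symm⟩
      · exact Or.inr ⟨i, hi, (h2 i (hZ i hi)).symm⟩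
    · rintro (⟨y, rfl⟩ | ⟨i, hi, rfl⟩)
      · obtain ⟨i, hi, hiy⟩ := h3 y
        exact ⟨i, Or.inl hi, hiy⟩
      · exact ⟨i, Or.inr hi, h2 i (hZ i hi)⟩
  rw [e1 L hL, e1 R hR, ← e2, ← img_cs, ← img_un, K_img]

lemma tr0 (S : PKer d) {ι : Type} [Fintype ι] (L R : (Fin d → ι) → Prop) (X : Finset ι)
    (x : ℕ) (hX : X.card = x + 1) (hL : ∀ c, L c → ∀ t, c t ∉ X)
    (hR : ∀ c, R c → ∀ t, c t ∉ X) :
    S.K ι L (un R (cs (X : Set ι)))
      = S.K (ι ⊕ Fin (x + 1)) (img Function.Embedding.inl L)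
        (un (img Function.Embedding.inl R) (cs (Set.range Sum.inr))) := by
  have := tr S L R X ∅ x hX hL hR (by simp)
  simpa using this

/-- absorption, for blocks in a fixed index type -/
theorem absorb' (S : PKer d) (hd : 1 ≤ d) (z : ℕ) (ε : ℝ) (hε : 0 < ε) :
    ∃ n₀ : ℕ, ∀ n : ℕ, n₀ ≤ n → ∀ (ι : Type) [Fintype ι] (P Q : (Fin d → ι) → Prop)
      (Z : Finset ι) (X : ℕ → Finset ι), Z.card = z → (∀ x, x < n → (X x).card = x + 1) →
      (∀ x, x < n → ∀ c, P c → ∀ t, c t ∉ X x) → (∀ x, x < n → ∀ c, Q c → ∀ t, c t ∉ X x) →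
      (∀ x, x < n → ∀ i ∈ Z, i ∉ X x) →
      (∀ c : Fin d → ι, (∀ t, c t ∈ Z) → ¬ P c) →
      |∑ x ∈ range n, (S.K ι Q (un P (cs ((X x : Set ι) ∪ (Z : Set ι))))
        - S.K ι Q (un P (cs (X x : Set ι))))| ≤ ε * n := by
  obtain ⟨n₀, h⟩ := absorb S hd z ε hε
  refine ⟨n₀, fun n hn ι _ P Q Z X hZ hX hP hQ hZX hPZ => ?_⟩
  have h1 := h n hn ι P Q Z hZ hPZ
  refine le_trans (le_of_eq ?_) h1
  congr 1
  refine sum_congr rfl fun x hx => ?_
  have hx' := mem_range.1 hx
  rw [tr S Q P (X x) Z x (hX x hx') (hQ x hx') (hP x hx') (hZX x hx'),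
    tr0 S Q P (X x) x (hX x hx') (hQ x hx') (hP x hx')]

/-- common cubes do not matter, for blocks in a fixed index type -/
theorem swap' (S : PKer d) (hd : 1 ≤ d) (z : ℕ) (ε : ℝ) (hε : 0 < ε) :
    ∃ n₀ : ℕ, ∀ n : ℕ, n₀ ≤ n → ∀ (ι : Type) [Fintype ι] (P Q : (Fin d → ι) → Prop)
      (Z : Finset ι) (X : ℕ → Finset ι), Z.card = z → (∀ x, x < n → (X x).card = x + 1) →
      (∀ x, x < n → ∀ c, P c → ∀ t, c t ∉ X x) → (∀ x, x < n → ∀ c, Q c → ∀ t, c t ∉ X x) →
      (∀ x, x < n → ∀ i ∈ Z, i ∉ X x) →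
      (∀ c : Fin d → ι, (∀ t, c t ∈ Z) → ¬ P c) → (∀ c : Fin d → ι, (∀ t, c t ∈ Z) → ¬ Q c) →
      |∑ x ∈ range n, (S.K ι (un P (cu Z)) (un (un Q (cu Z)) (cs (X x : Set ι)))
        - S.K ι P (un Q (cs (X x : Set ι))))| ≤ ε * n := by
  obtain ⟨n₀, h⟩ := swap S hd z ε hε
  refine ⟨n₀, fun n hn ι _ P Q Z X hZ hX hP hQ hZX hPZ hQZ => ?_⟩
  have h1 := h n hn ι P Q Z hZ hPZ hQZ
  refine le_trans (le_of_eq ?_) h1
  congr 1
  refine sum_congr rfl fun x hx => ?_
  have hx' := mem_range.1 hx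
  have hcu : ∀ c : Fin d → ι, cu Z c → ∀ t, c t ∉ X x := fun c hc t => hZX x hx' _ (hc t)
  rw [tr0 S _ _ (X x) x (hX x hx')
    (fun c hc => hc.elim (hP x hx' c) (hcu c)) (fun c hc => hc.elim (hQ x hx' c) (hcu c)),
    tr0 S P Q (X x) x (hX x hx') (hP x hx') (hQ x hx')]

lemma tri3 (n : ℕ) (ε : ℝ) (g : ℕ → ℕ → ℕ → ℝ)
    (h : ∀ x < n, ∀ y < n, |∑ z ∈ range n, g x y z| ≤ ε * n) :
    |∑ x ∈ range n, ∑ y ∈ range n, ∑ z ∈ range n, g x y z| ≤ ε * n ^ 3 := by
  refine (abs_sum_le_sum_abs _ _).trans ?_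
  have h1 : ∀ x ∈ range n, |∑ y ∈ range n, ∑ z ∈ range n, g x y z| ≤ ε * n ^ 2 := by
    intro x hx
    refine (abs_sum_le_sum_abs _ _).trans ?_
    refine (sum_le_sum fun y hy => h x (mem_range.1 hx) y (mem_range.1 hy)).trans (le_of_eq ?_)
    simp
    ring
  refine (sum_le_sum h1).trans (le_of_eq ?_)
  simp
  ring

lemma tri2 (n : ℕ) (ε : ℝ) (g : ℕ → ℕ → ℕ → ℝ)
    (h : ∀ x < n, ∀ z < n, |∑ y ∈ range n, g x y z| ≤ ε * n) :
    |∑ x ∈ range n, ∑ y ∈ range n, ∑ z ∈ range n, g x y z| ≤ ε * n ^ 3 := by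
  have h1 := tri3 n ε (fun x z y => g x y z) h
  refine le_trans (le_of_eq ?_) h1
  congr 1
  exact sum_congr rfl fun x _ => sum_comm

lemma tri1 (n : ℕ) (ε : ℝ) (g : ℕ → ℕ → ℕ → ℝ)
    (h : ∀ y < n, ∀ z < n, |∑ x ∈ range n, g x y z| ≤ ε * n) :
    |∑ x ∈ range n, ∑ y ∈ range n, ∑ z ∈ range n, g x y z| ≤ ε * n ^ 3 := by
  have h1 := tri2 n ε (fun y x z => g x y z) h
  refine le_trans (le_of_eq ?_) h1
  rw [sum_comm]

/-- the pattern made of three cubes, any two of which have a block in common -/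
def UU {ι : Type} (X₁ X₂ X₃ a b c : Finset ι) : (Fin d → ι) → Prop :=
  un (un (cs ((X₁ : Set ι) ∪ a ∪ b)) (cs ((X₂ : Set ι) ∪ b ∪ c))) (cs ((X₃ : Set ι) ∪ c ∪ a))

/-- three disjoint cubes -/
def DD {ι : Type} (a b c : Finset ι) : (Fin d → ι) → Prop := un (un (cu a) (cu b)) (cu c)

/-- **The chain of transformations.** -/
theorem chain (S : PKer d) (hd : 1 ≤ d) (A B C : ℕ) (ε : ℝ) (hε : 0 < ε) :
    ∃ n₀ : ℕ, ∀ n : ℕ, n₀ ≤ n → ∀ (ι : Type) [Fintype ι] (lab : ι → Fin 6)
      (a b c : Finset ι) (X₁ X₂ X₃ : ℕ → Finset ι), a.card = A → b.card = B → c.card = C →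
      (∀ x, x < n → (X₁ x).card = x + 1) → (∀ x, x < n → (X₂ x).card = x + 1) →
      (∀ x, x < n → (X₃ x).card = x + 1) →
      (∀ x, ∀ i ∈ X₁ x, lab i = 0) → (∀ x, ∀ i ∈ X₂ x, lab i = 1) → (∀ x, ∀ i ∈ X₃ x, lab i = 2) →
      (∀ i ∈ a, lab i = 3) → (∀ i ∈ b, lab i = 4) → (∀ i ∈ c, lab i = 5) →
      |∑ x ∈ range n, ∑ y ∈ range n, ∑ z ∈ range n,
        (S.K ι (fun _ => False) (UU (X₁ x) (X₂ y) (X₃ z) a b c)
          - S.K ι (DD a b c) (DD (X₁ x) (X₂ y) (X₃ z)))| ≤ ε * n ^ 3 := by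
  obtain ⟨n₁, h₁⟩ := absorb' S hd (A + B) (ε / 6) (by positivity)
  obtain ⟨n₂, h₂⟩ := swap' S hd B (ε / 6) (by positivity)
  obtain ⟨n₃, h₃⟩ := absorb' S hd (B + C) (ε / 6) (by positivity)
  obtain ⟨n₄, h₄⟩ := swap' S hd A (ε / 6) (by positivity)
  obtain ⟨n₅, h₅⟩ := swap' S hd C (ε / 6) (by positivity)
  obtain ⟨n₆, h₆⟩ := absorb' S hd (C + A) (ε / 6) (by positivity)
  refine ⟨n₁ + n₂ + n₃ + n₄ + n₅ + n₆, fun n hn ι _ lab a b c X₁ X₂ X₃ ha hb hc hX₁ hX₂ hX₃
    l₁ l₂ l₃ la lb lc => ?_⟩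
  classical
  -- cardinalities
  have hab : (a ∪ b).card = A + B := by
    rw [card_union_of_disjoint, ha, hb]
    rw [Finset.disjoint_left]
    intro i h1 h2
    have := (la i h1).symm.trans (lb i h2)
    exact absurd this (by decide)
  have hbc : (b ∪ c).card = B + C := by
    rw [card_union_of_disjoint, hb, hc]
    rw [Finset.disjoint_left]
    intro i h1 h2
    have := (lb i h1).symm.trans (lc i h2)
    exact absurd this (by decide)
  have hca : (c ∪ a).card = C + A := by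
    rw [card_union_of_disjoint, hc, ha]
    rw [Finset.disjoint_left]
    intro i h1 h2
    have := (lc i h1).symm.trans (la i h2)
    exact absurd this (by decide)
  -- notation
  set c1 : ℕ → (Fin d → ι) → Prop := fun x => cs ((X₁ x : Set ι) ∪ ((a ∪ b : Finset ι) : Set ι))
    with hc1
  set c2 : ℕ → (Fin d → ι) → Prop := fun y => cs ((X₂ y : Set ι) ∪ ((b ∪ c : Finset ι) : Set ι))
    with hc2
  set c3 : ℕ → (Fin d → ι) → Prop := fun z => cs ((X₃ z : Set ι) ∪ ((c ∪ a : Finset ι) : Set ι))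
    with hc3
  have i1 : ∀ x (e : Fin d → ι), c1 x e → ∀ t, lab (e t) = 0 ∨ lab (e t) = 3 ∨ lab (e t) = 4 := by
    intro x e he t
    have := he t
    simp only [Set.mem_union, mem_coe, mem_union] at this
    rcases this with h | h | h
    · exact Or.inl (l₁ x _ h)
    · exact Or.inr (Or.inl (la _ h))
    · exact Or.inr (Or.inr (lb _ h))
  have i2 : ∀ x (e : Fin d → ι), c2 x e → ∀ t, lab (e t) = 1 ∨ lab (e t) = 4 ∨ lab (e t) = 5 := by
    intro x e he t
    have := he t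
    simp only [Set.mem_union, mem_coe, mem_union] at this
    rcases this with h | h | h
    · exact Or.inl (l₂ x _ h)
    · exact Or.inr (Or.inl (lb _ h))
    · exact Or.inr (Or.inr (lc _ h))
  have j1 : ∀ x (e : Fin d → ι), cs (X₁ x : Set ι) e → ∀ t, lab (e t) = 0 :=
    fun x e he t => l₁ x _ (he t)
  have j2 : ∀ x (e : Fin d → ι), cs (X₂ x : Set ι) e → ∀ t, lab (e t) = 1 :=
    fun x e he t => l₂ x _ (he t)
  have j3 : ∀ x (e : Fin d → ι), cs (X₃ x : Set ι) e → ∀ t, lab (e t) = 2 :=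
    fun x e he t => l₃ x _ (he t)
  have ja : ∀ (e : Fin d → ι), cu a e → ∀ t, lab (e t) = 3 := fun e he t => la _ (he t)
  have jb : ∀ (e : Fin d → ι), cu b e → ∀ t, lab (e t) = 4 := fun e he t => lb _ (he t)
  have jc : ∀ (e : Fin d → ι), cu c e → ∀ t, lab (e t) = 5 := fun e he t => lc _ (he t)
  have ka1 : ∀ x (e : Fin d → ι), cu a e → c1 x e := fun x e he t =>
    Or.inr (mem_coe.2 (mem_union_left _ (he t)))
  have kb1 : ∀ x (e : Fin d → ι), cu b e → c1 x e := fun x e he t =>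
    Or.inr (mem_coe.2 (mem_union_right _ (he t)))
  have kb2 : ∀ x (e : Fin d → ι), cu b e → c2 x e := fun x e he t =>
    Or.inr (mem_coe.2 (mem_union_left _ (he t)))
  have kc2 : ∀ x (e : Fin d → ι), cu c e → c2 x e := fun x e he t =>
    Or.inr (mem_coe.2 (mem_union_right _ (he t)))
  have kc3 : ∀ x (e : Fin d → ι), cu c e → c3 x e := fun x e he t =>
    Or.inr (mem_coe.2 (mem_union_left _ (he t)))
  have ka3 : ∀ x (e : Fin d → ι), cu a e → c3 x e := fun x e he t =>
    Or.inr (mem_coe.2 (mem_union_right _ (he t)))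
  -- avoiding
  have av : ∀ (X : Finset ι) (k : Fin 6), (∀ i ∈ X, lab i = k) → ∀ i, lab i ≠ k → i ∉ X :=
    fun X k h i hi h' => hi (h i h')
  -- the values
  set v0 : ℕ → ℕ → ℕ → ℝ := fun x y z => S.K ι (DD a b c) (DD (X₁ x) (X₂ y) (X₃ z)) with hv0
  set v1 : ℕ → ℕ → ℕ → ℝ := fun x y z =>
    S.K ι (DD a b c) (un (un (cs (X₂ y : Set ι)) (cs (X₃ z : Set ι))) (c1 x)) with hv1
  set v2 : ℕ → ℕ → ℕ → ℝ := fun x y z => S.K ι (un (cu a) (cu c))
    (un (un (fun e => c1 x e ∧ ¬ cu b e) (cs (X₂ y : Set ι))) (cs (X₃ z : Set ι))) with hv2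
  set v3 : ℕ → ℕ → ℕ → ℝ := fun x y z => S.K ι (un (cu a) (cu c))
    (un (un (fun e => c1 x e ∧ ¬ cu b e) (cs (X₃ z : Set ι))) (c2 y)) with hv3
  set v4 : ℕ → ℕ → ℕ → ℝ := fun x y z => S.K ι (cu c)
    (un (un (fun e => c1 x e ∧ ¬ cu a e) (c2 y)) (cs (X₃ z : Set ι))) with hv4
  set v5 : ℕ → ℕ → ℕ → ℝ := fun x y z => S.K ι (fun _ => False)
    (un (un (fun e => c1 x e ∧ ¬ cu a e) (fun e => c2 y e ∧ ¬ cu c e)) (cs (X₃ z : Set ι)))
    with hv5
  set v6 : ℕ → ℕ → ℕ → ℝ := fun x y z => S.K ι (fun _ => False)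
    (UU (X₁ x) (X₂ y) (X₃ z) a b c) with hv6
  have t0 : (0 : ℕ) < d := hd
  set t₀ : Fin d := ⟨0, hd⟩ with ht₀
  -- step 1
  have s1 : |∑ x ∈ range n, ∑ y ∈ range n, ∑ z ∈ range n, (v1 x y z - v0 x y z)|
      ≤ ε / 6 * n ^ 3 := by
    refine tri1 n (ε / 6) (fun x y z => v1 x y z - v0 x y z) fun y _ z _ => ?_
    have h := h₁ n (by omega) ι (un (cs (X₂ y : Set ι)) (cs (X₃ z : Set ι))) (DD a b c) (a ∪ b)
      X₁ hab hX₁ ?_ ?_ ?_ ?_
    · refine le_trans (le_of_eq ?_) h
      congr 1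
      refine sum_congr rfl fun x _ => ?_
      simp only [hv1, hv0, hc1]
      congr 1
      refine S.congr (fun e => Iff.rfl) (fun e => ?_)
      simp only [DD, un]
      have e1 : cu (X₁ x) e ↔ cs (X₁ x : Set ι) e := Iff.rfl
      have e2 : cu (X₂ y) e ↔ cs (X₂ y : Set ι) e := Iff.rfl
      have e3 : cu (X₃ z) e ↔ cs (X₃ z : Set ι) e := Iff.rfl
      rw [e1, e2, e3]
      tauto
    · rintro x - e (he | he) t
      · exact av _ 0 (l₁ x) _ (by rw [j2 y e he t]; decide)
      · exact av _ 0 (l₁ x) _ (by rw [j3 z e he t]; decide)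
    · rintro x - e ((he | he) | he) t
      · exact av _ 0 (l₁ x) _ (by rw [ja e he t]; decide)
      · exact av _ 0 (l₁ x) _ (by rw [jb e he t]; decide)
      · exact av _ 0 (l₁ x) _ (by rw [jc e he t]; decide)
    · intro x _ i hi
      rcases mem_union.1 hi with hi | hi
      · exact av _ 0 (l₁ x) _ (by rw [la i hi]; decide)
      · exact av _ 0 (l₁ x) _ (by rw [lb i hi]; decide)
    · rintro e he (h | h)
      · have h1 := j2 y e h t₀
        rcases mem_union.1 (he t₀) with hi | hi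
        · rw [la _ hi] at h1
          exact absurd h1 (by decide)
        · rw [lb _ hi] at h1
          exact absurd h1 (by decide)
      · have h1 := j3 z e h t₀
        rcases mem_union.1 (he t₀) with hi | hi
        · rw [la _ hi] at h1
          exact absurd h1 (by decide)
        · rw [lb _ hi] at h1
          exact absurd h1 (by decide)
  -- step 2
  have s2 : |∑ x ∈ range n, ∑ y ∈ range n, ∑ z ∈ range n, (v1 x y z - v2 x y z)|
      ≤ ε / 6 * n ^ 3 := by
    refine tri3 n (ε / 6) (fun x y z => v1 x y z - v2 x y z) fun x _ y _ => ?_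
    have h := h₂ n (by omega) ι (un (cu a) (cu c))
      (un (fun e => c1 x e ∧ ¬ cu b e) (cs (X₂ y : Set ι))) b X₃ hb hX₃ ?_ ?_ ?_ ?_ ?_
    · refine le_trans (le_of_eq ?_) h
      congr 1
      refine sum_congr rfl fun z _ => ?_
      simp only [hv1, hv2]
      congr 1
      refine S.congr (fun e => ?_) (fun e => ?_)
      · simp only [DD, un]
        tauto
      · simp only [un]
        have e1 := kb1 x e
        tauto
    · rintro z - e (he | he) t
      · exact av _ 2 (l₃ z) _ (by rw [ja e he t]; decide)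
      · exact av _ 2 (l₃ z) _ (by rw [jc e he t]; decide)
    · rintro z - e (⟨he, -⟩ | he) t
      · refine av _ 2 (l₃ z) _ ?_
        rcases i1 x e he t with h | h | h <;> rw [h] <;> decide
      · exact av _ 2 (l₃ z) _ (by rw [j2 y e he t]; decide)
    · intro z _ i hi
      exact av _ 2 (l₃ z) _ (by rw [lb i hi]; decide)
    · rintro e he (h | h)
      · have h1 := ja e h t₀
        rw [jb e he t₀] at h1
        exact absurd h1 (by decide)
      · have h1 := jc e h t₀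
        rw [jb e he t₀] at h1
        exact absurd h1 (by decide)
    · rintro e he (⟨-, h⟩ | h)
      · exact h he
      · have h1 := j2 y e h t₀
        rw [jb e he t₀] at h1
        exact absurd h1 (by decide)
  -- step 3
  have s3 : |∑ x ∈ range n, ∑ y ∈ range n, ∑ z ∈ range n, (v3 x y z - v2 x y z)|
      ≤ ε / 6 * n ^ 3 := by
    refine tri2 n (ε / 6) (fun x y z => v3 x y z - v2 x y z) fun x _ z _ => ?_
    have h := h₃ n (by omega) ι (un (fun e => c1 x e ∧ ¬ cu b e) (cs (X₃ z : Set ι)))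
      (un (cu a) (cu c)) (b ∪ c) X₂ hbc hX₂ ?_ ?_ ?_ ?_
    · refine le_trans (le_of_eq ?_) h
      congr 1
      refine sum_congr rfl fun y _ => ?_
      simp only [hv3, hv2, hc2]
      congr 1
      refine S.congr (fun e => Iff.rfl) (fun e => ?_)
      simp only [un]
      tauto
    · rintro y - e (⟨he, -⟩ | he) t
      · refine av _ 1 (l₂ y) _ ?_
        rcases i1 x e he t with h | h | h <;> rw [h] <;> decide
      · exact av _ 1 (l₂ y) _ (by rw [j3 z e he t]; decide)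
    · rintro y - e (he | he) t
      · exact av _ 1 (l₂ y) _ (by rw [ja e he t]; decide)
      · exact av _ 1 (l₂ y) _ (by rw [jc e he t]; decide)
    · intro y _ i hi
      rcases mem_union.1 hi with hi | hi
      · exact av _ 1 (l₂ y) _ (by rw [lb i hi]; decide)
      · exact av _ 1 (l₂ y) _ (by rw [lc i hi]; decide)
    · rintro e he (⟨h, hnb⟩ | h)
      · refine hnb fun t => ?_
        rcases mem_union.1 (he t) with hi | hi
        · exact hi
        · exfalso
          have h1 := i1 x e h t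
          rw [lc _ hi] at h1
          exact absurd h1 (by decide)
      · have h1 := j3 z e h t₀
        rcases mem_union.1 (he t₀) with hi | hi
        · rw [lb _ hi] at h1
          exact absurd h1 (by decide)
        · rw [lc _ hi] at h1
          exact absurd h1 (by decide)
  -- step 4
  have s4 : |∑ x ∈ range n, ∑ y ∈ range n, ∑ z ∈ range n, (v3 x y z - v4 x y z)|
      ≤ ε / 6 * n ^ 3 := by
    refine tri3 n (ε / 6) (fun x y z => v3 x y z - v4 x y z) fun x _ y _ => ?_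
    have h := h₄ n (by omega) ι (cu c) (un (fun e => c1 x e ∧ ¬ cu a e) (c2 y)) a X₃ ha hX₃
      ?_ ?_ ?_ ?_ ?_
    · refine le_trans (le_of_eq ?_) h
      congr 1
      refine sum_congr rfl fun z _ => ?_
      simp only [hv3, hv4]
      congr 1
      refine S.congr (fun e => ?_) (fun e => ?_)
      · simp only [un]
        tauto
      · simp only [un]
        have e1 := ka1 x e
        have e2 := kb2 y e
        tauto
    · rintro z - e he t
      exact av _ 2 (l₃ z) _ (by rw [jc e he t]; decide)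
    · rintro z - e (⟨he, -⟩ | he) t
      · refine av _ 2 (l₃ z) _ ?_
        rcases i1 x e he t with h | h | h <;> rw [h] <;> decide
      · refine av _ 2 (l₃ z) _ ?_
        rcases i2 y e he t with h | h | h <;> rw [h] <;> decide
    · intro z _ i hi
      exact av _ 2 (l₃ z) _ (by rw [la i hi]; decide)
    · rintro e he h
      have h1 := jc e h t₀
      rw [ja e he t₀] at h1
      exact absurd h1 (by decide)
    · rintro e he (⟨-, h⟩ | h)
      · exact h he
      · have h1 := i2 y e h t₀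
        rw [ja e he t₀] at h1
        exact absurd h1 (by decide)
  -- step 5
  have s5 : |∑ x ∈ range n, ∑ y ∈ range n, ∑ z ∈ range n, (v4 x y z - v5 x y z)|
      ≤ ε / 6 * n ^ 3 := by
    refine tri3 n (ε / 6) (fun x y z => v4 x y z - v5 x y z) fun x _ y _ => ?_
    have h := h₅ n (by omega) ι (fun _ => False)
      (un (fun e => c1 x e ∧ ¬ cu a e) (fun e => c2 y e ∧ ¬ cu c e)) c X₃ hc hX₃ ?_ ?_ ?_ ?_ ?_
    · refine le_trans (le_of_eq ?_) h
      congr 1
      refine sum_congr rfl fun z _ => ?_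
      simp only [hv4, hv5]
      congr 1
      refine S.congr (fun e => ?_) (fun e => ?_)
      · simp only [un]
        tauto
      · simp only [un]
        have e2 := kc2 y e
        tauto
    · rintro z - e he t
      exact he.elim
    · rintro z - e (⟨he, -⟩ | ⟨he, -⟩) t
      · refine av _ 2 (l₃ z) _ ?_
        rcases i1 x e he t with h | h | h <;> rw [h] <;> decide
      · refine av _ 2 (l₃ z) _ ?_
        rcases i2 y e he t with h | h | h <;> rw [h] <;> decide
    · intro z _ i hi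
      exact av _ 2 (l₃ z) _ (by rw [lc i hi]; decide)
    · rintro e he h
      exact h
    · rintro e he (⟨h, -⟩ | ⟨-, h⟩)
      · have h1 := i1 x e h t₀
        rw [jc e he t₀] at h1
        exact absurd h1 (by decide)
      · exact h he
  -- step 6
  have s6 : |∑ x ∈ range n, ∑ y ∈ range n, ∑ z ∈ range n, (v6 x y z - v5 x y z)|
      ≤ ε / 6 * n ^ 3 := by
    refine tri3 n (ε / 6) (fun x y z => v6 x y z - v5 x y z) fun x _ y _ => ?_
    have h := h₆ n (by omega) ι
      (un (fun e => c1 x e ∧ ¬ cu a e) (fun e => c2 y e ∧ ¬ cu c e)) (fun _ => False) (c ∪ a) X₃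
      hca hX₃ ?_ ?_ ?_ ?_
    · refine le_trans (le_of_eq ?_) h
      congr 1
      refine sum_congr rfl fun z _ => ?_
      simp only [hv6, hv5]
      congr 1
      refine S.congr (fun e => Iff.rfl) (fun e => ?_)
      have e1 := ka3 z e
      have e2 := kc3 z e
      have g1 : cs ((X₁ x : Set ι) ∪ a ∪ b) e ↔ c1 x e := by
        simp only [hc1, coe_union, ← Set.union_assoc]
      have g2 : cs ((X₂ y : Set ι) ∪ b ∪ c) e ↔ c2 y e := by
        simp only [hc2, coe_union, ← Set.union_assoc]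
      have g3 : cs ((X₃ z : Set ι) ∪ c ∪ a) e ↔ c3 z e := by
        simp only [hc3, coe_union, ← Set.union_assoc]
      have g4 : cs ((X₃ z : Set ι) ∪ ((c ∪ a : Finset ι) : Set ι)) e ↔ c3 z e := Iff.rfl
      simp only [UU, un]
      rw [g1, g2, g3, g4]
      tauto
    · rintro z - e (⟨he, -⟩ | ⟨he, -⟩) t
      · refine av _ 2 (l₃ z) _ ?_
        rcases i1 x e he t with h | h | h <;> rw [h] <;> decide
      · refine av _ 2 (l₃ z) _ ?_
        rcases i2 y e he t with h | h | h <;> rw [h] <;> decide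
    · rintro z - e he t
      exact he.elim
    · intro z _ i hi
      rcases mem_union.1 hi with hi | hi
      · exact av _ 2 (l₃ z) _ (by rw [lc i hi]; decide)
      · exact av _ 2 (l₃ z) _ (by rw [la i hi]; decide)
    · rintro e he (⟨h, hna⟩ | ⟨h, hnc⟩)
      · refine hna fun t => ?_
        rcases mem_union.1 (he t) with hi | hi
        · exfalso
          have h1 := i1 x e h t
          rw [lc _ hi] at h1
          exact absurd h1 (by decide)
        · exact hi
      · refine hnc fun t => ?_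
        rcases mem_union.1 (he t) with hi | hi
        · exact hi
        · exfalso
          have h1 := i2 y e h t
          rw [la _ hi] at h1
          exact absurd h1 (by decide)
  have hfin : ∑ x ∈ range n, ∑ y ∈ range n, ∑ z ∈ range n, (v6 x y z - v0 x y z)
      = ∑ x ∈ range n, ∑ y ∈ range n, ∑ z ∈ range n, (v1 x y z - v0 x y z)
        - ∑ x ∈ range n, ∑ y ∈ range n, ∑ z ∈ range n, (v1 x y z - v2 x y z)
        + ∑ x ∈ range n, ∑ y ∈ range n, ∑ z ∈ range n, (v3 x y z - v2 x y z)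
        - ∑ x ∈ range n, ∑ y ∈ range n, ∑ z ∈ range n, (v3 x y z - v4 x y z)
        - ∑ x ∈ range n, ∑ y ∈ range n, ∑ z ∈ range n, (v4 x y z - v5 x y z)
        + ∑ x ∈ range n, ∑ y ∈ range n, ∑ z ∈ range n, (v6 x y z - v5 x y z) := by
    simp only [← sum_sub_distrib, ← sum_add_distrib]
    refine sum_congr rfl fun x _ => sum_congr rfl fun y _ => sum_congr rfl fun z _ => ?_
    ring
  change |∑ x ∈ range n, ∑ y ∈ range n, ∑ z ∈ range n, (v6 x y z - v0 x y z)| ≤ _
  rw [hfin]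
  rw [abs_le] at s1 s2 s3 s4 s5 s6 ⊢
  constructor <;>
    linarith [s1.1, s1.2, s2.1, s2.2, s3.1, s3.2, s4.1, s4.2, s5.1, s5.2, s6.1, s6.2]

end Pool.Agent.H56.TC
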