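import Mathlib
import Pool.Agent.H56.TC.Chain

set_option autoImplicit false

/-!
# Planted kernels: the union of three cubes is not negatively correlated with the empty pattern
-/

namespace Pool.Agent.H56.TC

open Finset Pool.Agent.H56.HJ

variable {d : ℕ}

/-- the block `p`, of size `s` -/
def bl {I : Type} (M : ℕ) (p : I) (s : ℕ) : Finset (I × Fin M) :=
  (univ.filter fun j : Fin M => (j : ℕ) < s).map ⟨fun j => (p, j), fun a b h => by simpa using h⟩

lemma mem_bl {I : Type} {M : ℕ} {p : I} {s : ℕ} {w : I × Fin M} :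
    w ∈ bl M p s ↔ w.1 = p ∧ (w.2 : ℕ) < s := by
  unfold bl
  rw [mem_map]
  constructor
  · rintro ⟨j, hj, rfl⟩
    exact ⟨rfl, (mem_filter.1 hj).2⟩
  · rintro ⟨h1, h2⟩
    exact ⟨w.2, mem_filter.2 ⟨mem_univ _, h2⟩, Prod.ext h1.symm rfl⟩

lemma card_bl {I : Type} {M : ℕ} (p : I) {s : ℕ} (hs : s ≤ M) : (bl M p s).card = s := by
  unfold bl
  rw [card_map, Fin.card_filter_val_lt, min_eq_right hs]

/-- the value at two triples of disjoint cubes -/
noncomputable def gv (S : PKer d) (s : Fin 6 → ℕ) : ℝ :=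
  S.K (Σ p : Fin 6, Fin (s p))
    (DD (univ.map (Function.Embedding.sigmaMk (3 : Fin 6)))
      (univ.map (Function.Embedding.sigmaMk (4 : Fin 6)))
      (univ.map (Function.Embedding.sigmaMk (5 : Fin 6))))
    (DD (univ.map (Function.Embedding.sigmaMk (0 : Fin 6)))
      (univ.map (Function.Embedding.sigmaMk (1 : Fin 6)))
      (univ.map (Function.Embedding.sigmaMk (2 : Fin 6))))

lemma can (S : PKer d) {ι : Type} [Fintype ι] (A : Fin 6 → Finset ι)
    (hA : ∀ p q, p ≠ q → Disjoint (A p) (A q)) (s : Fin 6 → ℕ) (hs : ∀ p, (A p).card = s p) :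
    S.K ι (DD (A 3) (A 4) (A 5)) (DD (A 0) (A 1) (A 2)) = gv S s := by
  have e : ∀ p, Fin (s p) ≃ A p := fun p => ((A p).equivFin.trans (finCongr (hs p))).symm
  set g : (Σ p : Fin 6, Fin (s p)) ↪ ι := ⟨fun w => (e w.1 w.2 : ι), by
    rintro ⟨p, j⟩ ⟨q, k⟩ h
    simp only at h
    have hpq : p = q := by
      by_contra hne
      have h1 := (e p j).2
      have h2 := (e q k).2
      rw [h] at h1
      exact (Finset.disjoint_left.1 (hA p q hne)) h1 h2
    subst hpq
    have : e p j = e p k := Subtype.ext h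
    rw [(e p).injective this]⟩ with hg
  have h1 : ∀ p, (univ.map (Function.Embedding.sigmaMk (β := fun p : Fin 6 => Fin (s p)) p)).map g
      = A p := by
    intro p
    ext i
    simp only [mem_map, mem_univ, true_and]
    constructor
    · rintro ⟨w, ⟨j, rfl⟩, rfl⟩
      exact (e p j).2
    · intro hi
      refine ⟨⟨p, (e p).symm ⟨i, hi⟩⟩, ⟨_, rfl⟩, ?_⟩
      simp [hg]
  unfold gv
  rw [← K_img S g]
  unfold DD
  simp only [img_un, img_cu, h1]

/-- a double sum of a symmetric function -/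
lemma double_sum (a : ℕ → ℕ → ℝ) (ha : ∀ i j, a i j = a j i) (m : ℕ) :
    ∑ i ∈ range m, ∑ j ∈ range m, a i j
      = ∑ i ∈ range m, a i i + 2 * ∑ j ∈ range m, ∑ i ∈ range j, a i j := by
  induction m with
  | zero => simp
  | succ m ih =>
    rw [sum_range_succ, sum_range_succ (fun j => a m j), sum_range_succ (fun i => a i i),
      sum_range_succ (fun j => ∑ i ∈ range j, a i j)]
    have e : ∑ i ∈ range m, ∑ j ∈ range (m + 1), a i j
        = ∑ i ∈ range m, ∑ j ∈ range m, a i j + ∑ i ∈ range m, a i m := by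
      rw [← sum_add_distrib]
      exact sum_congr rfl fun i _ => sum_range_succ _ _
    have e2 : ∑ j ∈ range m, a m j = ∑ i ∈ range m, a i m := sum_congr rfl fun i _ => ha m i
    rw [e, e2, ih]
    ring

/-- the sizes of the six blocks -/
def sz (T T' : Fin 3 → ℕ) : Fin 6 → ℕ := ![T' 0 + 1, T' 1 + 1, T' 2 + 1, T 0 + 1, T 1 + 1, T 2 + 1]

lemma triple_const (n : ℕ) (C : ℝ) :
    ∑ _x ∈ range n, ∑ _y ∈ range n, ∑ _z ∈ range n, C = C * n ^ 3 := by
  simp
  ring

/-- **Positivity.** -/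
theorem pos (S : PKer d) (hd : 1 ≤ d) (ε : ℝ) (hε : 0 < ε) :
    ∃ (s : Fin 6 → ℕ) (M : ℕ), (∀ p, 1 ≤ s p ∧ s p ≤ M) ∧
      -ε < S.K (Fin 6 × Fin M) (fun _ => False)
        (UU (bl M 0 (s 0)) (bl M 1 (s 1)) (bl M 2 (s 2)) (bl M 3 (s 3)) (bl M 4 (s 4))
          (bl M 5 (s 5))) := by
  classical
  by_contra hcon
  push Not at hcon
  -- the averages of the values at two triples of disjoint cubes
  have key : ∀ T : Fin 3 → ℕ, ∃ n₀ : ℕ, ∀ n : ℕ, n₀ ≤ n →
      ∑ x ∈ range n, ∑ y ∈ range n, ∑ z ∈ range n, gv S (sz T ![x, y, z])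
        ≤ -(ε / 2) * n ^ 3 := by
    intro T
    obtain ⟨n₀, h⟩ := chain S hd (T 0 + 1) (T 1 + 1) (T 2 + 1) (ε / 2) (by positivity)
    refine ⟨n₀, fun n hn => ?_⟩
    set M : ℕ := n + (T 0 + 1) + (T 1 + 1) + (T 2 + 1) with hM
    have h1 := h n hn (Fin 6 × Fin M) Prod.fst (bl M 3 (T 0 + 1)) (bl M 4 (T 1 + 1))
      (bl M 5 (T 2 + 1)) (fun x => bl M 0 (x + 1)) (fun x => bl M 1 (x + 1))
      (fun x => bl M 2 (x + 1)) (card_bl _ (by omega)) (card_bl _ (by omega))
      (card_bl _ (by omega)) (fun x hx => card_bl _ (by omega)) (fun x hx => card_bl _ (by omega))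
      (fun x hx => card_bl _ (by omega)) (fun x i hi => (mem_bl.1 hi).1)
      (fun x i hi => (mem_bl.1 hi).1) (fun x i hi => (mem_bl.1 hi).1)
      (fun i hi => (mem_bl.1 hi).1) (fun i hi => (mem_bl.1 hi).1) (fun i hi => (mem_bl.1 hi).1)
    have h2 : ∀ x ∈ range n, ∀ y ∈ range n, ∀ z ∈ range n,
        S.K (Fin 6 × Fin M) (DD (bl M 3 (T 0 + 1)) (bl M 4 (T 1 + 1)) (bl M 5 (T 2 + 1)))
          (DD (bl M 0 (x + 1)) (bl M 1 (y + 1)) (bl M 2 (z + 1))) = gv S (sz T ![x, y, z]) := by
      intro x hx y hy z hz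
      have hx' := mem_range.1 hx
      have hy' := mem_range.1 hy
      have hz' := mem_range.1 hz
      have h3 := can S (fun p : Fin 6 => bl M p (sz T ![x, y, z] p)) ?_ (sz T ![x, y, z]) ?_
      · exact h3
      · intro p q hpq
        rw [Finset.disjoint_left]
        intro i hi hi'
        exact hpq ((mem_bl.1 hi).1.symm.trans (mem_bl.1 hi').1)
      · intro p
        refine card_bl _ ?_
        fin_cases p <;> simp [sz] <;> omega
    have h4 : ∀ x ∈ range n, ∀ y ∈ range n, ∀ z ∈ range n,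
        S.K (Fin 6 × Fin M) (fun _ => False) (UU (bl M 0 (x + 1)) (bl M 1 (y + 1))
          (bl M 2 (z + 1)) (bl M 3 (T 0 + 1)) (bl M 4 (T 1 + 1)) (bl M 5 (T 2 + 1))) ≤ -ε := by
      intro x hx y hy z hz
      have hx' := mem_range.1 hx
      have hy' := mem_range.1 hy
      have hz' := mem_range.1 hz
      have h5 := hcon (sz T ![x, y, z]) M ?_
      · exact h5
      · intro p
        fin_cases p <;> simp [sz] <;> omega
    simp only [sum_sub_distrib] at h1
    have h6 : ∑ x ∈ range n, ∑ y ∈ range n, ∑ z ∈ range n,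
        S.K (Fin 6 × Fin M) (fun _ => False) (UU (bl M 0 (x + 1)) (bl M 1 (y + 1))
          (bl M 2 (z + 1)) (bl M 3 (T 0 + 1)) (bl M 4 (T 1 + 1)) (bl M 5 (T 2 + 1)))
        ≤ -ε * n ^ 3 := by
      rw [← triple_const]
      exact sum_le_sum fun x hx => sum_le_sum fun y hy => sum_le_sum fun z hz => h4 x hx y hy z hz
    have h7 : ∑ x ∈ range n, ∑ y ∈ range n, ∑ z ∈ range n,
        S.K (Fin 6 × Fin M) (DD (bl M 3 (T 0 + 1)) (bl M 4 (T 1 + 1)) (bl M 5 (T 2 + 1)))
          (DD (bl M 0 (x + 1)) (bl M 1 (y + 1)) (bl M 2 (z + 1)))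
        = ∑ x ∈ range n, ∑ y ∈ range n, ∑ z ∈ range n, gv S (sz T ![x, y, z]) :=
      sum_congr rfl fun x hx => sum_congr rfl fun y hy => sum_congr rfl fun z hz =>
        h2 x hx y hy z hz
    rw [h7] at h1
    have h8 := (abs_le.1 h1).1
    linarith
  choose N₀ hN₀ using key
  -- greedy choice
  have greedy : ∀ m : ℕ, ∃ T : ℕ → Fin 3 → ℕ, ∀ j < m,
      ∑ i ∈ range j, gv S (sz (T i) (T j)) ≤ -(ε / 2) * j := by
    intro m
    induction m with
    | zero => exact ⟨fun _ _ => 0, fun j hj => by omega⟩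
    | succ m ih =>
      obtain ⟨T, hT⟩ := ih
      set n : ℕ := ∑ i ∈ range m, N₀ (T i) + 1 with hn
      have h1 : ∀ i ∈ range m, N₀ (T i) ≤ n := by
        intro i hi
        have : N₀ (T i) ≤ ∑ i ∈ range m, N₀ (T i) :=
          single_le_sum (f := fun i => N₀ (T i)) (fun _ _ => Nat.zero_le _) hi
        omega
      have h2 : ∑ x ∈ range n, ∑ y ∈ range n, ∑ z ∈ range n,
          ∑ i ∈ range m, gv S (sz (T i) ![x, y, z]) ≤ -(ε / 2) * m * n ^ 3 := by
        have e1 : ∑ x ∈ range n, ∑ y ∈ range n, ∑ z ∈ range n,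
            ∑ i ∈ range m, gv S (sz (T i) ![x, y, z])
            = ∑ i ∈ range m, ∑ x ∈ range n, ∑ y ∈ range n, ∑ z ∈ range n,
              gv S (sz (T i) ![x, y, z]) := by
          rw [sum_comm (s := range m)]
          refine sum_congr rfl fun x _ => ?_
          rw [sum_comm (s := range m)]
          refine sum_congr rfl fun y _ => ?_
          rw [sum_comm (s := range m)]
        rw [e1]
        refine (sum_le_sum fun i hi => hN₀ (T i) n (h1 i hi)).trans (le_of_eq ?_)
        simp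
        ring
      obtain ⟨x, y, z, hxyz⟩ : ∃ x y z : ℕ,
          ∑ i ∈ range m, gv S (sz (T i) ![x, y, z]) ≤ -(ε / 2) * m := by
        by_contra hno
        push Not at hno
        have h3 : ∑ x ∈ range n, ∑ y ∈ range n, ∑ z ∈ range n, (-(ε / 2) * (m : ℝ))
            < ∑ x ∈ range n, ∑ y ∈ range n, ∑ z ∈ range n,
              ∑ i ∈ range m, gv S (sz (T i) ![x, y, z]) := by
          have hne : (range n).Nonempty := ⟨0, mem_range.2 (by omega)⟩
          exact sum_lt_sum_of_nonempty hne fun x _ => sum_lt_sum_of_nonempty hne fun y _ =>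
            sum_lt_sum_of_nonempty hne fun z _ => hno x y z
        rw [triple_const] at h3
        linarith
      refine ⟨Function.update T m ![x, y, z], fun j hj => ?_⟩
      rcases Nat.lt_succ_iff_lt_or_eq.1 hj with hj' | rfl
      · have h4 : ∀ i ∈ range j, gv S (sz (Function.update T m ![x, y, z] i)
            (Function.update T m ![x, y, z] j)) = gv S (sz (T i) (T j)) := by
          intro i hi
          have := mem_range.1 hi
          rw [Function.update_of_ne (by omega), Function.update_of_ne (by omega)]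
        rw [sum_congr rfl h4]
        exact hT j hj'
      · have h4 : ∀ i ∈ range j, gv S (sz (Function.update T j ![x, y, z] i)
            (Function.update T j ![x, y, z] j)) = gv S (sz (T i) ![x, y, z]) := by
          intro i hi
          have := mem_range.1 hi
          rw [Function.update_of_ne (by omega), Function.update_self]
        rw [sum_congr rfl h4]
        exact hxyz
  -- contradiction
  obtain ⟨m, hm⟩ := exists_nat_gt (2 * S.v / ε + 1)
  have hv := S.v_nonneg
  have hm1 : (1 : ℝ) < m := by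
    have : 0 ≤ 2 * S.v / ε := by positivity
    linarith
  obtain ⟨T, hT⟩ := greedy m
  set M : ℕ := ∑ i ∈ range m, (T i 0 + T i 1 + T i 2 + 1) with hM
  have hTM : ∀ i < m, T i 0 + 1 ≤ M ∧ T i 1 + 1 ≤ M ∧ T i 2 + 1 ≤ M := by
    intro i hi
    have : T i 0 + T i 1 + T i 2 + 1 ≤ ∑ i ∈ range m, (T i 0 + T i 1 + T i 2 + 1) :=
      single_le_sum (f := fun i => T i 0 + T i 1 + T i 2 + 1) (fun _ _ => Nat.zero_le _)
        (mem_range.2 hi)
    omega
  set fi : ℕ → Fin (m + 1) := fun i => ⟨min i m, by omega⟩ with hfi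
  set W : ℕ → (Fin d → (Fin (m + 1) × Fin 3) × Fin M) → Prop := fun i =>
    DD (bl M (fi i, (0 : Fin 3)) (T i 0 + 1))
      (bl M (fi i, (1 : Fin 3)) (T i 1 + 1))
      (bl M (fi i, (2 : Fin 3)) (T i 2 + 1)) with hW
  set κ : ℕ → ℕ → ℝ := fun i j => S.K ((Fin (m + 1) × Fin 3) × Fin M) (W i) (W j) with hκ
  have h1 : ∀ i j, i < j → j < m → κ i j = gv S (sz (T i) (T j)) := by
    intro i j hij hj
    have hne : fi i ≠ fi j := by
      intro h
      have : min i m = min j m := congrArg Fin.val h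
      omega
    have h2 := can S (ι := (Fin (m + 1) × Fin 3) × Fin M)
      ![bl M (fi j, (0 : Fin 3)) (T j 0 + 1),
        bl M (fi j, (1 : Fin 3)) (T j 1 + 1),
        bl M (fi j, (2 : Fin 3)) (T j 2 + 1),
        bl M (fi i, (0 : Fin 3)) (T i 0 + 1),
        bl M (fi i, (1 : Fin 3)) (T i 1 + 1),
        bl M (fi i, (2 : Fin 3)) (T i 2 + 1)] ?_ (sz (T i) (T j)) ?_
    · exact h2
    · have dj : ∀ (p q : Fin (m + 1) × Fin 3) (s s' : ℕ), p ≠ q →
          Disjoint (bl M p s) (bl M q s') := by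
        intro p q s s' hpq
        rw [Finset.disjoint_left]
        intro w hw hw'
        exact hpq ((mem_bl.1 hw).1.symm.trans (mem_bl.1 hw').1)
      have n1 : ∀ a b : Fin 3, (fi i, a) ≠ (fi j, b) :=
        fun a b h => hne (congrArg Prod.fst h)
      have n2 : ∀ a b : Fin 3, (fi j, a) ≠ (fi i, b) :=
        fun a b h => hne (congrArg Prod.fst h).symm
      have n3 : ∀ (k : Fin (m + 1)) (a b : Fin 3), a ≠ b → (k, a) ≠ (k, b) :=
        fun k a b hab h => hab (congrArg Prod.snd h)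
      intro p q hpq
      fin_cases p <;> fin_cases q <;> first
        | exact (hpq rfl).elim
        | exact dj _ _ _ _ (n1 _ _)
        | exact dj _ _ _ _ (n2 _ _)
        | exact dj _ _ _ _ (n3 _ _ _ (by decide))
    · have hi' := hTM i (by omega)
      have hj' := hTM j hj
      intro p
      fin_cases p
      · exact card_bl _ hj'.1
      · exact card_bl _ hj'.2.1
      · exact card_bl _ hj'.2.2
      · exact card_bl _ hi'.1
      · exact card_bl _ hi'.2.1
      · exact card_bl _ hi'.2.2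
  have h2 : 0 ≤ ∑ i ∈ range m, ∑ j ∈ range m, κ i j := by
    have h3 := S.psd ((Fin (m + 1) × Fin 3) × Fin M) (Fin m) (fun _ => 1) (fun i => W i)
    have h4 : ∑ x : Fin m, ∑ y : Fin m, (1 : ℝ) * 1
        * S.K ((Fin (m + 1) × Fin 3) × Fin M) (W x) (W y)
        = ∑ i ∈ range m, ∑ j ∈ range m, κ i j := by
      rw [← Fin.sum_univ_eq_sum_range (fun i => ∑ j ∈ range m, κ i j)]
      refine sum_congr rfl fun x _ => ?_
      rw [← Fin.sum_univ_eq_sum_range (fun j => κ x j)]
      refine sum_congr rfl fun y _ => ?_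
      ring
    rw [← h4]
    exact h3
  rw [double_sum κ (fun i j => S.symm _ _ _)] at h2
  have h3 : ∑ i ∈ range m, κ i i = m * S.v := by
    have : ∀ i ∈ range m, κ i i = S.v := fun i _ => S.same _ hd _ _ fun _ => Iff.rfl
    rw [sum_congr rfl this]
    simp
  have h4 : ∑ j ∈ range m, ∑ i ∈ range j, κ i j ≤ ∑ j ∈ range m, -(ε / 2) * (j : ℝ) := by
    refine sum_le_sum fun j hj => ?_
    have hj' := mem_range.1 hj
    have : ∀ i ∈ range j, κ i j = gv S (sz (T i) (T j)) := fun i hi =>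
      h1 i j (mem_range.1 hi) hj'
    rw [sum_congr rfl this]
    exact hT j hj'
  have h5 : ∑ j ∈ range m, -(ε / 2) * (j : ℝ) = -(ε / 2) * (m * (m - 1) / 2) := by
    rw [← mul_sum]
    congr 1
    have h6 : ∀ k : ℕ, ∑ j ∈ range k, (j : ℝ) = k * (k - 1) / 2 := by
      intro k
      induction k with
      | zero => simp
      | succ k ih =>
        rw [sum_range_succ, ih]
        push_cast
        ring
    exact h6 m
  rw [h5] at h4
  rw [h3] at h2
  have h6 : 2 * S.v < ε * (m - 1) := by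
    have h7 : 2 * S.v / ε < m - 1 := by linarith
    rw [div_lt_iff₀ hε] at h7
    linarith
  have hm0 : (0 : ℝ) < m := by linarith
  nlinarith

end Pool.Agent.H56.TC
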