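import Mathlib
import Pool.Agent.H56.TC.Pos
import Pool.Agent.H56.HJ.Main

set_option autoImplicit false

/-!
# Planted kernels of families
-/

namespace Pool.Agent.H56.TC

open Finset Filter Topology Pool.Agent.TH7.DH Pool.Agent.H56.HJ

variable {d : ℕ}

/-- the union of three cubes over the blocks of sizes `s` -/
def UC (d : ℕ) (s : Fin 6 → ℕ) : (Fin d → (Σ p : Fin 6, Fin (s p))) → Prop :=
  UU (univ.map (Function.Embedding.sigmaMk (0 : Fin 6)))
    (univ.map (Function.Embedding.sigmaMk (1 : Fin 6)))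
    (univ.map (Function.Embedding.sigmaMk (2 : Fin 6)))
    (univ.map (Function.Embedding.sigmaMk (3 : Fin 6)))
    (univ.map (Function.Embedding.sigmaMk (4 : Fin 6)))
    (univ.map (Function.Embedding.sigmaMk (5 : Fin 6)))

lemma img_UU {ι κ : Type} (g : ι ↪ κ) (X₁ X₂ X₃ a b c : Finset ι) :
    img (d := d) g (UU X₁ X₂ X₃ a b c)
      = UU (X₁.map g) (X₂.map g) (X₃.map g) (a.map g) (b.map g) (c.map g) := by
  unfold UU
  simp only [img_un, img_cs, Set.image_union, coe_map]

/-- positivity, for blocks which are all of the index type -/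
theorem pos' (S : PKer d) (hd : 1 ≤ d) (ε : ℝ) (hε : 0 < ε) :
    ∃ s : Fin 6 → ℕ, (∀ p, 1 ≤ s p) ∧
      -ε < S.K (Σ p : Fin 6, Fin (s p)) (fun _ => False) (UC d s) := by
  obtain ⟨s, M, hs, h⟩ := pos S hd ε hε
  refine ⟨s, fun p => (hs p).1, h.trans_le (le_of_eq ?_)⟩
  set g : (Σ p : Fin 6, Fin (s p)) ↪ Fin 6 × Fin M :=
    ⟨fun w => (w.1, Fin.castLE (hs w.1).2 w.2), by
      rintro ⟨p, j⟩ ⟨q, k⟩ h
      simp only [Prod.mk.injEq] at h
      obtain ⟨h1, h2⟩ := h
      subst h1
      rw [Fin.castLE_injective _ h2]⟩ with hg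
  have h1 : ∀ p : Fin 6, (univ.map (Function.Embedding.sigmaMk
      (β := fun p : Fin 6 => Fin (s p)) p)).map g = bl M p (s p) := by
    intro p
    ext w
    rw [mem_bl]
    simp only [Finset.mem_map, mem_univ, true_and]
    constructor
    · rintro ⟨w', ⟨j, rfl⟩, rfl⟩
      refine ⟨rfl, ?_⟩
      simp [hg]
    · rintro ⟨h1, h2⟩
      subst h1
      refine ⟨⟨w.1, ⟨w.2, h2⟩⟩, ⟨_, rfl⟩, ?_⟩
      simp [hg]
  rw [← K_img S g]
  refine S.congr (fun c => ?_) (fun c => ?_)
  · simp [img]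
  · unfold UC
    rw [img_UU, h1, h1, h1, h1, h1, h1]

lemma exists_lt_of_lt_av {X : Type} [Fintype X] [Nonempty X] (f : X → ℝ) (t : ℝ) (h : t < av f) :
    ∃ x, t < f x := by
  by_contra hno
  push Not at hno
  have h1 : 0 ≤ av (fun x => t + (-1) * f x) := av_nonneg fun x => by linarith [hno x]
  rw [av_add, av_smul, av_const] at h1
  linarith

/-- **Families.** Along an ultrafilter, some sizes of the blocks are popular. -/
theorem fam (hd : 1 ≤ d) (V : Ultrafilter ℕ) (hV : (V : Filter ℕ) ≤ atTop)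
    (S : (N : ℕ) → Finset (Finset (Fin d → Fin N))) (D : ℝ) (hD0 : 0 ≤ D) (hD1 : D ≤ 1)
    (hD : Tendsto (fun N => av (fun A => ind (S N) A)) V (𝓝 D)) (ε : ℝ) (hε : 0 < ε) :
    ∃ s : Fin 6 → ℕ, (∀ p, 1 ≤ s p) ∧ ∀ᶠ N in (V : Filter ℕ),
      ∃ φ : (Σ p : Fin 6, Fin (s p)) ↪ Fin N, D ^ 2 - ε <
        av (fun A => ind (S N) (ow φ (fun _ => False) A) * ind (S N) (ow φ (UC d s) A)) := by
  classical
  have hlarge : ∀ n : ℕ, ∀ᶠ N in (V : Filter ℕ), n ≤ N := fun n => hV (eventually_ge_atTop n)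
  -- the systems
  let Sf1 : Sys d := ⟨V, hV, fun N A => ind (S N) A, fun _ _ => 1, fun _ _ => ind_abs _ _,
    fun _ _ => by simp⟩
  let h : (N : ℕ) → Finset (Fin d → Fin N) → ℝ := fun N A => ind (S N) A - D
  have hh : ∀ N A, |h N A| ≤ 1 := by
    intro N A
    have h1 := ind_nonneg (S N) A
    have h2 := ind_le (S N) A
    rw [abs_le]
    constructor
    · change -1 ≤ ind (S N) A - D
      linarith
    · change ind (S N) A - D ≤ 1
      linarith
  let Sh : Sys d := ⟨V, hV, h, h, hh, hh⟩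
  -- the density of planted sets
  have hav : ∀ (ι : Type) [Fintype ι] (P : (Fin d → ι) → Prop),
      Tendsto (fun N => av (fun φ : ι ↪ Fin N => av (fun A => ind (S N) (ow φ P A)))) V (𝓝 D) := by
    intro ι _ P
    have h1 := Sf1.tendsto ι P P
    have h2 : Sf1.K ι P P = D := by
      rw [Sf1.K_same ι hd P P fun _ => Iff.rfl]
      refine tendsto_nhds_unique (Sf1.tendsto Empty (fun _ => True) (fun _ => True)) ?_
      refine hD.congr fun N => ?_
      unfold KN
      have h3 : ∀ φ : Empty ↪ Fin N, av (fun A => Sf1.h₁ N (ow φ (fun _ => True) A)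
          * Sf1.h₂ N (ow φ (fun _ => True) A)) = av (fun A => ind (S N) A) := by
        intro φ
        congr 1
        funext A
        rw [ow_empty hd]
        change ind (S N) A * 1 = _
        rw [mul_one]
      simp only [h3]
      have : Nonempty (Empty ↪ Fin N) := ⟨⟨Empty.elim, fun x => x.elim⟩⟩
      rw [av_const]
    rw [h2] at h1
    refine h1.congr fun N => ?_
    unfold KN
    congr 1
    funext φ
    congr 1
    funext A
    change ind (S N) _ * 1 = _
    rw [mul_one]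
  obtain ⟨s, hs, hpos⟩ := pos' (ker Sh rfl) hd ε hε
  refine ⟨s, hs, ?_⟩
  -- the kernel of `h` at the pattern
  have hK : Tendsto (fun N => KN N (h N) (h N) (Σ p : Fin 6, Fin (s p)) (fun _ => False) (UC d s)) V
      (𝓝 ((ker Sh rfl).K (Σ p : Fin 6, Fin (s p)) (fun _ => False) (UC d s))) :=
    Sh.tendsto _ _ _
  have h0 := hav (Σ p : Fin 6, Fin (s p)) (fun _ => False)
  have h1 := hav (Σ p : Fin 6, Fin (s p)) (UC d s)
  -- the kernel of the indicator functions
  have h2 : Tendsto (fun N => KN N (h N) (h N) (Σ p : Fin 6, Fin (s p)) (fun _ => False) (UC d s)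
      + (D * av (fun φ : (Σ p : Fin 6, Fin (s p)) ↪ Fin N =>
          av (fun A => ind (S N) (ow φ (fun _ => False) A)))
        + (D * av (fun φ : (Σ p : Fin 6, Fin (s p)) ↪ Fin N =>
          av (fun A => ind (S N) (ow φ (UC d s) A))) + (-D ^ 2)))) V
      (𝓝 ((ker Sh rfl).K (Σ p : Fin 6, Fin (s p)) (fun _ => False) (UC d s)
        + (D * D + (D * D + (-D ^ 2))))) :=
    hK.add ((h0.const_mul _).add ((h1.const_mul _).add tendsto_const_nhds))
  have h3 : D ^ 2 - ε < (ker Sh rfl).K (Σ p : Fin 6, Fin (s p)) (fun _ => False) (UC d s)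
        + (D * D + (D * D + (-D ^ 2))) := by linarith
  have h4 := h2.eventually (lt_mem_nhds h3)
  filter_upwards [h4, hlarge (Fintype.card (Σ p : Fin 6, Fin (s p)))] with N hN1 hN2
  have hne : Nonempty ((Σ p : Fin 6, Fin (s p)) ↪ Fin N) := by
    refine Function.Embedding.nonempty_of_card_le ?_
    rwa [Fintype.card_fin]
  refine exists_lt_of_lt_av (fun φ : (Σ p : Fin 6, Fin (s p)) ↪ Fin N =>
    av (fun A => ind (S N) (ow φ (fun _ => False) A) * ind (S N) (ow φ (UC d s) A))) _ ?_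
  refine hN1.trans_le (le_of_eq ?_)
  have e1 : av (fun φ : (Σ p : Fin 6, Fin (s p)) ↪ Fin N =>
      av (fun A => ind (S N) (ow φ (fun _ => False) A) * ind (S N) (ow φ (UC d s) A)))
      = av (fun φ : (Σ p : Fin 6, Fin (s p)) ↪ Fin N =>
      av (fun A => h N (ow φ (fun _ => False) A) * h N (ow φ (UC d s) A)
        + (D * ind (S N) (ow φ (fun _ => False) A)
        + (D * ind (S N) (ow φ (UC d s) A) + (-D ^ 2))))) := by
    congr 1
    funext φ
    congr 1
    funext A
    change _ = (ind (S N) (ow φ (fun _ => False) A) - D) * (ind (S N) (ow φ (UC d s) A) - D) + _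
    ring
  rw [e1]
  unfold KN
  simp only [av_add, av_smul, av_const]

end Pool.Agent.H56.TC
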